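import Pool.Agent.Q174.AF.Semi

/-!
# Sparse functions on semilattices, affine functions on intersection-closed families
-/

set_option autoImplicit false

namespace Pool.Agent.Q174.AF

open Finset Pool.Agent.Q174.TD

lemma prot_comap {X X' Y Y' : Type*} {F : X → Y → Bool} {F' : X' → Y' → Bool} (u : X → X')
    (v : Y → Y') (h : ∀ x y, F x y = F' (u x) (v y)) {c : ℕ} {A : Set X'} {B : Set Y'}
    (hp : Prot F' c A B) : Prot F c (u ⁻¹' A) (v ⁻¹' B) := by
  induction hp with
  | const c A B b hb => exact Prot.const c _ _ b fun x hx y hy => by rw [h]; exact hb _ hx _ hy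
  | alice c A B S _ _ ih₁ ih₂ => exact Prot.alice c _ _ (u ⁻¹' S) ih₁ ih₂
  | bob c A B S _ _ ih₁ ih₂ => exact Prot.bob c _ _ (v ⁻¹' S) ih₁ ih₂

section sparse

variable {L : Type*} [SemilatticeInf L] [Fintype L] {Y : Type*}

/-- all translates of the columns by meets -/
def Fcl (F : L → Y → Bool) : L → Option L × Y → Bool := fun x p =>
  match p.1 with
  | none => F x p.2
  | some a => F (x ⊓ a) p.2

omit [Fintype L] in
lemma meetClosed_Fcl (F : L → Y → Bool) : MeetClosed (Fcl F) := by
  rintro b ⟨o, y⟩
  cases o with
  | none => exact ⟨(some b, y), fun x => rfl⟩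
  | some a =>
    refine ⟨(some (b ⊓ a), y), fun x => ?_⟩
    change F (x ⊓ (b ⊓ a)) y = F (x ⊓ b ⊓ a) y
    rw [inf_assoc]

/-- **Sparse functions on a semilattice.** -/
theorem span_prot [Fintype Y] [DecidableLE L] (F : L → Y → Bool) (P : Finset L)
    (hP : ∀ y, ∃ c : L → ℝ, ∀ x, (if F x y then (1 : ℝ) else 0) =
      ∑ s ∈ P, if s ≤ x then c s else 0) :
    Prot F (1620 * (Nat.clog 2 (P.card + 2)) ^ 6 + 1) Set.univ Set.univ := by
  classical
  have hrk : rk ℝ (Fcl F) ≤ P.card := by
    have h1 : rk ℝ (Fcl F) = Module.finrank ℝ (Submodule.span ℝ (Set.range (col ℝ (Fcl F)))) := by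
      unfold rk
      rw [Matrix.rank_eq_finrank_span_cols]
      rfl
    rw [h1]
    have h2 : Submodule.span ℝ (Set.range (col ℝ (Fcl F))) ≤
        Submodule.span ℝ ((P.image fun (s : L) (x : L) => if s ≤ x then (1 : ℝ) else 0 :
          Finset (L → ℝ)) : Set (L → ℝ)) := by
      rw [Submodule.span_le]
      rintro _ ⟨⟨o, y⟩, rfl⟩
      obtain ⟨c, hc⟩ := hP y
      have key : ∀ c' : L → ℝ, (fun x => ∑ s ∈ P, if s ≤ x then c' s else 0) ∈
          Submodule.span ℝ ((P.image fun (s : L) (x : L) => if s ≤ x then (1 : ℝ) else 0 :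
          Finset (L → ℝ)) : Set (L → ℝ)) := by
        intro c'
        have h3 : (fun x => ∑ s ∈ P, if s ≤ x then c' s else 0) =
            ∑ s ∈ P, c' s • fun x => if s ≤ x then (1 : ℝ) else 0 := by
          funext x
          rw [Finset.sum_apply]
          refine Finset.sum_congr rfl fun s _ => ?_
          simp
        rw [h3]
        refine Submodule.sum_mem _ fun s hs => Submodule.smul_mem _ _ (Submodule.subset_span ?_)
        rw [mem_coe, mem_image]
        exact ⟨s, hs, rfl⟩
      cases o with
      | none =>
        have h3 : col ℝ (Fcl F) (none, y) = fun x => ∑ s ∈ P, if s ≤ x then c s else 0 := by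
          funext x
          exact hc x
        rw [SetLike.mem_coe, h3]
        exact key c
      | some a =>
        have h3 : col ℝ (Fcl F) (some a, y) =
            fun x => ∑ s ∈ P, if s ≤ x then (if s ≤ a then c s else 0) else 0 := by
          funext x
          change (if F (x ⊓ a) y then (1 : ℝ) else 0) = _
          rw [hc]
          refine Finset.sum_congr rfl fun s _ => ?_
          simp only [le_inf_iff, ite_and]
        rw [SetLike.mem_coe, h3]
        exact key _
    refine (Submodule.finrank_mono h2).trans ((finrank_span_finset_le_card _).trans ?_)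
    exact card_image_le
  have h1 := (closed_prot (meetClosed_Fcl F)).le
    (show 1620 * (Nat.clog 2 (rk ℝ (Fcl F) + 2)) ^ 6 + 1 ≤
      1620 * (Nat.clog 2 (P.card + 2)) ^ 6 + 1 from
      Nat.add_le_add_right (Nat.mul_le_mul_left _ (Nat.pow_le_pow_left
        (Nat.clog_mono_right 2 (by omega)) 6)) 1)
  exact prot_comap (F := F) (F' := Fcl F) id (fun y => (none, y)) (fun x y => rfl) h1

end sparse

section feat

variable {X Y : Type*} [Fintype X] [Fintype Y]

/-- **Affine functions on a family of sets which is closed under intersection.** -/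
theorem feat_prot {n : ℕ} (e : X → Fin n → Bool) (he : ∀ x x', ∃ x'', ∀ i, e x'' i = (e x i && e x' i))
    (F : X → Y → Bool) (hF : ∀ y, ∃ (c : ℝ) (w : Fin n → ℝ), ∀ x,
      (if F x y then (1 : ℝ) else 0) = c + ∑ i, if e x i then w i else 0) :
    Prot F (1620 * (Nat.clog 2 (n + 3)) ^ 6 + 1) Set.univ Set.univ := by
  classical
  rcases isEmpty_or_nonempty X with hX | hX
  · exact Prot.const _ _ _ false fun x => (hX.false x).elim
  -- the semilattice of feature vectors
  let L := {u : Fin n → Bool // ∃ x, e x = u}
  letI : SemilatticeInf L := Subtype.semilatticeInf (by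
    rintro u v ⟨x, rfl⟩ ⟨x', rfl⟩
    obtain ⟨x'', h⟩ := he x x'
    exact ⟨x'', funext fun i => h i⟩)
  letI : Fintype L := Fintype.ofFinite L
  let ρ : X → L := fun x => ⟨e x, x, rfl⟩
  have hρ : Function.Surjective ρ := by
    rintro ⟨u, x, rfl⟩
    exact ⟨x, rfl⟩
  choose τ hτ using hρ
  have hval : ∀ x x' y, e x = e x' → F x y = F x' y := by
    intro x x' y h
    obtain ⟨c, w, hc⟩ := hF y
    have h1 := hc x
    rw [h, ← hc x'] at h1
    cases h2 : F x y <;> cases h3 : F x' y <;> simp [h2, h3] at h1 ⊢
  have hle : ∀ (u v : L), u ≤ v ↔ ∀ i, u.1 i = true → v.1 i = true := by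
    intro u v
    change u.1 ≤ v.1 ↔ _
    rw [Pi.le_def]
    refine forall_congr' fun i => ?_
    cases u.1 i <;> cases v.1 i <;> simp
  haveI : Nonempty L := ⟨ρ (Classical.arbitrary X)⟩
  let bot : L := (univ : Finset L).inf' univ_nonempty id
  have hbot : ∀ u, bot ≤ u := fun u => Finset.inf'_le id (mem_univ u)
  let S : Fin n → Finset L := fun i => univ.filter fun u => u.1 i = true
  let up : Fin n → L := fun i => if h : (S i).Nonempty then (S i).inf' h id else bot
  have hup : ∀ i (u : L), (S i).Nonempty → (up i ≤ u ↔ u.1 i = true) := by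
    intro i u hne
    have h1 : up i = (S i).inf' hne id := dif_pos hne
    constructor
    · intro h
      have h2 : (up i).1 i = true := by
        rw [h1]
        -- the set of `u` with `u i = true` is closed under meets
        have h3 : (S i).inf' hne id ∈ {u : L | u.1 i = true} := by
          refine Finset.inf'_induction hne id ?_ ?_
          · intro a ha b hb
            change (a.1 ⊓ b.1) i = true
            rw [Pi.inf_apply, ha, hb]
            rfl
          · intro a ha
            exact (mem_filter.mp ha).2
        exact h3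
      exact (hle _ _).mp h i h2
    · intro h
      rw [h1]
      exact Finset.inf'_le id (mem_filter.mpr ⟨mem_univ u, h⟩)
  have key := span_prot (L := L) (fun u y => F (τ u) y) (insert bot (univ.image up)) ?_
  · have h1 := key.le (show 1620 * (Nat.clog 2 ((insert bot (univ.image up)).card + 2)) ^ 6 + 1 ≤
        1620 * (Nat.clog 2 (n + 3)) ^ 6 + 1 from by
      refine Nat.add_le_add_right (Nat.mul_le_mul_left _ (Nat.pow_le_pow_left
        (Nat.clog_mono_right 2 ?_) 6)) 1
      have h2 : (insert bot (univ.image up)).card ≤ n + 1 := by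
        refine (card_insert_le _ _).trans (Nat.add_le_add_right ?_ 1)
        refine card_image_le.trans ?_
        rw [card_univ, Fintype.card_fin]
      omega)
    refine prot_comap (F := F) ρ id (fun x y => ?_) h1
    apply hval
    have := hτ (ρ x)
    exact (congrArg Subtype.val this).symm
  · intro y
    obtain ⟨c, w, hc⟩ := hF y
    refine ⟨fun s => (if s = bot then c else 0) +
      ∑ i, if (S i).Nonempty ∧ up i = s then w i else 0, fun u => ?_⟩
    have h0 : e (τ u) = u.1 := congrArg Subtype.val (hτ u)
    rw [hc (τ u), h0]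
    have h1 : ∀ s : L, (if s ≤ u then ((if s = bot then c else 0) +
        ∑ i, if (S i).Nonempty ∧ up i = s then w i else 0) else 0) =
        (if s = bot then c else 0) +
        ∑ i, if up i = s then (if u.1 i = true then w i else 0) else 0 := by
      intro s
      by_cases hs : s ≤ u
      · rw [if_pos hs]
        congr 1
        refine Finset.sum_congr rfl fun i _ => ?_
        by_cases h2 : up i = s
        · by_cases h3 : (S i).Nonempty
          · rw [if_pos ⟨h3, h2⟩, if_pos h2, if_pos ((hup i u h3).mp (h2 ▸ hs))]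
          · rw [if_neg fun h => h3 h.1, if_pos h2, if_neg]
            intro h4
            exact h3 ⟨u, mem_filter.mpr ⟨mem_univ u, h4⟩⟩
        · rw [if_neg fun h => h2 h.2, if_neg h2]
      · rw [if_neg hs]
        have h2 : s ≠ bot := by
          rintro rfl
          exact hs (hbot u)
        rw [if_neg h2, zero_add]
        symm
        refine Finset.sum_eq_zero fun i _ => ?_
        by_cases h3 : up i = s
        · rw [if_pos h3, if_neg]
          intro h4
          apply hs
          rw [← h3]
          exact (hup i u ⟨u, mem_filter.mpr ⟨mem_univ u, h4⟩⟩).mpr h4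
        · rw [if_neg h3]
    rw [Finset.sum_congr rfl fun s _ => h1 s, Finset.sum_add_distrib]
    congr 1
    · rw [Finset.sum_ite_eq', if_pos (mem_insert_self _ _)]
    · rw [Finset.sum_comm]
      refine Finset.sum_congr rfl fun i _ => ?_
      rw [Finset.sum_ite_eq, if_pos (mem_insert_of_mem (mem_image_of_mem up (mem_univ i)))]

/-- The same for families closed under union. -/
theorem feat_prot_or {n : ℕ} (e : X → Fin n → Bool)
    (he : ∀ x x', ∃ x'', ∀ i, e x'' i = (e x i || e x' i))
    (F : X → Y → Bool) (hF : ∀ y, ∃ (c : ℝ) (w : Fin n → ℝ), ∀ x,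
      (if F x y then (1 : ℝ) else 0) = c + ∑ i, if e x i then w i else 0) :
    Prot F (1620 * (Nat.clog 2 (n + 3)) ^ 6 + 1) Set.univ Set.univ := by
  refine feat_prot (fun x i => !e x i) ?_ F ?_
  · intro x x'
    obtain ⟨x'', h⟩ := he x x'
    refine ⟨x'', fun i => ?_⟩
    rw [h i]
    cases e x i <;> cases e x' i <;> rfl
  · intro y
    obtain ⟨c, w, hc⟩ := hF y
    refine ⟨c + ∑ i, w i, fun i => - w i, fun x => ?_⟩
    rw [hc x, add_assoc, ← Finset.sum_add_distrib]
    congr 1
    refine Finset.sum_congr rfl fun i _ => ?_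
    cases e x i <;> simp

end feat

end Pool.Agent.Q174.AF
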