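import Mathlib

/-!
# Counting tuples
-/

set_option autoImplicit false

namespace Pool.Agent.Q174.AF

open Finset

section tuples

variable {α : Type*} [Fintype α] [DecidableEq α] {k : ℕ}

/-- exchange the coordinate `j` with a given element -/
def swapAt (j : Fin k) : (Fin k → α) × α ≃ (Fin k → α) × α where
  toFun p := (Function.update p.1 j p.2, p.1 j)
  invFun p := (Function.update p.1 j p.2, p.1 j)
  left_inv p := by simp
  right_inv p := by simp

lemma count_one (j : Fin k) (P : (Fin k → α) → Prop) [DecidablePred P] (q N : ℕ)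
    (h : ∀ V, q * (univ.filter fun c => P (Function.update V j c)).card ≤ N) :
    q * (Fintype.card α * (univ.filter fun V => P V).card) ≤ N * Fintype.card α ^ k := by
  have h1 : Fintype.card α * (univ.filter fun V => P V).card =
      ∑ V : Fin k → α, (univ.filter fun c => P (Function.update V j c)).card := by
    have e1 : ∑ V : Fin k → α, (univ.filter fun c => P (Function.update V j c)).card =
        ∑ p : (Fin k → α) × α, if P (swapAt j p).1 then 1 else 0 := by
      rw [Fintype.sum_prod_type]
      refine Finset.sum_congr rfl fun V _ => ?_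
      rw [Finset.card_filter]
      rfl
    have e2 : ∑ p : (Fin k → α) × α, (if P (swapAt j p).1 then 1 else 0) =
        ∑ p : (Fin k → α) × α, if P p.1 then 1 else 0 :=
      Equiv.sum_comp (swapAt j) (fun p => if P p.1 then 1 else 0)
    rw [e1, e2, Fintype.sum_prod_type, Finset.card_filter, Finset.mul_sum]
    refine Finset.sum_congr rfl fun V _ => ?_
    exact (Finset.sum_const (if P V then 1 else 0)).symm
  rw [h1, Finset.mul_sum]
  refine (Finset.sum_le_card_nsmul _ _ N fun V _ => h V).trans ?_
  rw [card_univ, Fintype.card_fun, Fintype.card_fin, smul_eq_mul, mul_comm]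

lemma count_all (P : Fin k → (Fin k → α) → Prop) [∀ j, DecidablePred (P j)]
    [DecidablePred fun V => ∃ j, P j V] (q N : ℕ)
    (h : ∀ j V, q * (univ.filter fun c => P j (Function.update V j c)).card ≤ N) :
    q * (Fintype.card α * (univ.filter fun V => ∃ j, P j V).card) ≤
      k * (N * Fintype.card α ^ k) := by
  have h1 : (univ.filter fun V => ∃ j, P j V).card ≤
      ∑ j : Fin k, (univ.filter fun V => P j V).card := by
    refine (Finset.card_le_card ?_).trans (Finset.card_biUnion_le (s := univ)
      (t := fun j => univ.filter fun V => P j V))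
    intro V hV
    simp only [mem_filter, mem_univ, true_and] at hV
    obtain ⟨j, hj⟩ := hV
    simp only [mem_biUnion, mem_univ, mem_filter, true_and]
    exact ⟨j, hj⟩
  calc q * (Fintype.card α * (univ.filter fun V => ∃ j, P j V).card)
      ≤ q * (Fintype.card α * ∑ j : Fin k, (univ.filter fun V => P j V).card) := by gcongr
    _ = ∑ j : Fin k, q * (Fintype.card α * (univ.filter fun V => P j V).card) := by
        rw [Finset.mul_sum, Finset.mul_sum]
    _ ≤ ∑ _j : Fin k, N * Fintype.card α ^ k :=
        Finset.sum_le_sum fun j _ => count_one j (P j) q N (h j)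
    _ = k * (N * Fintype.card α ^ k) := by
        rw [Finset.sum_const, card_univ, Fintype.card_fin, smul_eq_mul]

end tuples

lemma collide {β γ : Type*} [DecidableEq β] [DecidableEq γ] (C : Finset β) (φ : β → γ) :
    (C.filter fun c => ∃ c' ∈ C, c' ≠ c ∧ φ c' = φ c).card + 2 * (C.image φ).card ≤
      2 * C.card := by
  set B := C.filter fun c => ∃ c' ∈ C, c' ≠ c ∧ φ c' = φ c with hB
  have h1 : C.image φ = B.image φ ∪ (C \ B).image φ := by
    rw [← Finset.image_union, Finset.union_sdiff_of_subset (Finset.filter_subset _ _)]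
  have h2 : 2 * (B.image φ).card ≤ B.card := by
    refine Finset.mul_card_image_le_card B 2 ?_
    intro b hb
    obtain ⟨c, hc, rfl⟩ := mem_image.mp hb
    have hc' := hc
    rw [hB, mem_filter] at hc'
    obtain ⟨hcC, c', hc'C, hne, he⟩ := hc'
    have hc'B : c' ∈ B := by
      rw [hB, mem_filter]
      exact ⟨hc'C, c, hcC, hne.symm, he.symm⟩
    have : ({c, c'} : Finset β) ⊆ B.filter fun x => φ x = φ c := by
      intro x hx
      rw [mem_insert, mem_singleton] at hx
      rcases hx with rfl | rfl
      · exact mem_filter.mpr ⟨hc, rfl⟩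
      · exact mem_filter.mpr ⟨hc'B, he⟩
    calc 2 = ({c, c'} : Finset β).card := (card_pair hne.symm).symm
      _ ≤ _ := card_le_card this
  have h3 : (C.image φ).card ≤ (B.image φ).card + (C \ B).card := by
    rw [h1]
    exact (card_union_le _ _).trans (Nat.add_le_add_left card_image_le _)
  have h4 : (C \ B).card + B.card = C.card := Finset.card_sdiff_add_card_eq_card (filter_subset _ _)
  omega

variable {ι : Type*} [DecidableEq ι]

/-- few classes leave the ideal -/
lemma cntA (A I : Finset (Finset ι)) (W : Finset ι) (q : ℕ)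
    (h : (q - 1) * A.card < q * ((A.image fun c => W ∪ c).filter (· ∈ I)).card) :
    q * (A.filter fun c => W ∪ c ∉ I).card ≤ A.card := by
  have h1 : ((A.image fun c => W ∪ c).filter (· ∈ I)).card ≤
      (A.filter fun c => W ∪ c ∈ I).card := by
    refine (Finset.card_le_card ?_).trans
      (Finset.card_image_le (s := A.filter fun c => W ∪ c ∈ I) (f := fun c => W ∪ c))
    intro z hz
    rw [mem_filter, mem_image] at hz
    obtain ⟨⟨c, hc, rfl⟩, hz⟩ := hz
    exact mem_image.mpr ⟨c, mem_filter.mpr ⟨hc, hz⟩, rfl⟩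
  have h2 := Finset.card_filter_add_card_filter_not (s := A) (fun c => W ∪ c ∈ I)
  have h3 : 1 ≤ q := by
    rcases Nat.eq_zero_or_pos q with h | h
    · subst h; omega
    · exact h
  have h4 : q * (A.filter fun c => W ∪ c ∈ I).card + q * (A.filter fun c => W ∪ c ∉ I).card =
      q * A.card := by rw [← mul_add, h2]
  have h5 : (q - 1) * A.card + A.card = q * A.card := by
    obtain ⟨p, rfl⟩ : ∃ p, q = p + 1 := ⟨q - 1, by omega⟩
    simp only [Nat.add_sub_cancel]
    ring
  have h6 := Nat.mul_le_mul_left q h1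
  omega

/-- few classes collide with another class -/
lemma cntC (A I : Finset (Finset ι)) (W : Finset ι) (q : ℕ)
    (h : (q - 1) * A.card < q * ((A.image fun c => W ∪ c).filter (· ∈ I)).card) :
    q * (A.filter fun c => W ∪ c ∈ I ∧ (c ⊆ W ∨ ∃ c' ∈ A, c' ≠ c ∧ W ∪ c' = W ∪ c)).card ≤
      2 * A.card + q := by
  set C := A.filter fun c => W ∪ c ∈ I with hC
  set B := C.filter fun c => ∃ c' ∈ C, c' ≠ c ∧ W ∪ c' = W ∪ c with hB
  have h0 : ((A.image fun c => W ∪ c).filter (· ∈ I)) ⊆ C.image fun c => W ∪ c := by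
    intro z hz
    rw [mem_filter, mem_image] at hz
    obtain ⟨⟨c, hc, rfl⟩, hz⟩ := hz
    exact mem_image.mpr ⟨c, mem_filter.mpr ⟨hc, hz⟩, rfl⟩
  have h1 := Finset.card_le_card h0
  have h2 := collide C (fun c => W ∪ c)
  have h3 : C.card ≤ A.card := card_le_card (filter_subset _ _)
  have h4 : (A.filter fun c => W ∪ c ∈ I ∧ (c ⊆ W ∨ ∃ c' ∈ A, c' ≠ c ∧ W ∪ c' = W ∪ c)) ⊆
      B ∪ (C \ B).filter fun c => c ⊆ W := by
    intro c hc
    rw [mem_filter] at hc
    obtain ⟨hcA, hcI, hc⟩ := hc
    have hcC : c ∈ C := mem_filter.mpr ⟨hcA, hcI⟩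
    by_cases hcB : c ∈ B
    · exact mem_union_left _ hcB
    · refine mem_union_right _ (mem_filter.mpr ⟨mem_sdiff.mpr ⟨hcC, hcB⟩, ?_⟩)
      rcases hc with hc | ⟨c', hc'A, hne, he⟩
      · exact hc
      · exact absurd (mem_filter.mpr ⟨hcC, c', mem_filter.mpr ⟨hc'A, by rw [he]; exact hcI⟩,
          hne, he⟩) hcB
  have h5 : ((C \ B).filter fun c => c ⊆ W).card ≤ 1 := by
    rw [Finset.card_le_one]
    intro c hc c' hc'
    by_contra hne
    rw [mem_filter, mem_sdiff] at hc hc'
    apply hc.1.2
    rw [hB, mem_filter]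
    refine ⟨hc.1.1, c', hc'.1.1, fun h => hne h.symm, ?_⟩
    rw [Finset.union_eq_left.mpr hc'.2, Finset.union_eq_left.mpr hc.2]
  have h6 := (Finset.card_le_card h4).trans (card_union_le _ _)
  have h7 : 1 ≤ q := by
    rcases Nat.eq_zero_or_pos q with h | h
    · subst h; omega
    · exact h
  have h8 : (q - 1) * A.card + A.card = q * A.card := by
    obtain ⟨p, rfl⟩ : ∃ p, q = p + 1 := ⟨q - 1, by omega⟩
    simp only [Nat.add_sub_cancel]
    ring
  calc q * (A.filter fun c => W ∪ c ∈ I ∧ (c ⊆ W ∨ ∃ c' ∈ A, c' ≠ c ∧ W ∪ c' = W ∪ c)).card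
      ≤ q * (B.card + 1) := Nat.mul_le_mul_left q (by omega)
    _ = q * B.card + q := by ring
    _ ≤ 2 * A.card + q := by
        have h9 : q * B.card + 2 * (q * (C.image fun c => W ∪ c).card) ≤ 2 * (q * C.card) := by
          nlinarith [h2]
        have h10 := Nat.mul_le_mul_left q h1
        have h11 := Nat.mul_le_mul_left q h3
        omega

end Pool.Agent.Q174.AF
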