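import Pool.Agent.Q174.AF.Sens

/-!
# Private blocks: a good tuple of classes gives a fully sensitive Boolean function
-/

set_option autoImplicit false

namespace Pool.Agent.Q174.AF

open Finset

variable {ι : Type*} [DecidableEq ι] [Fintype ι]

/-- the value of the class `c` of a function with Möbius coefficients `g`, for the base `a` -/
def psi (g : Finset ι → ℝ) (a c : Finset ι) : ℝ := ∑ s : Finset ι, if a ∪ s = c then g s else 0

lemma exists_of_psi_ne_zero {g : Finset ι → ℝ} {a c : Finset ι} (h : psi g a c ≠ 0) :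
    ∃ s, a ∪ s = c ∧ g s ≠ 0 := by
  obtain ⟨s, _, h1⟩ := Finset.exists_ne_zero_of_sum_ne_zero h
  by_cases h2 : a ∪ s = c
  · rw [if_pos h2] at h1
    exact ⟨s, h2, h1⟩
  · rw [if_neg h2] at h1
    exact absurd rfl h1

lemma subset_of_psi_ne_zero {g : Finset ι → ℝ} {a c : Finset ι} (h : psi g a c ≠ 0) :
    a ⊆ c := by
  obtain ⟨s, rfl, _⟩ := exists_of_psi_ne_zero h
  exact subset_union_left

variable {Y : Type*}

/-- active classes -/
noncomputable def act (G : Y → Finset ι → ℝ) (a : Finset ι) (I : Finset (Finset ι))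
    (C : Finset Y) : Finset (Finset ι) := by
  classical exact I.filter fun c => ∃ y ∈ C, psi (G y) a c ≠ 0

lemma mem_act {G : Y → Finset ι → ℝ} {a : Finset ι} {I : Finset (Finset ι)} {C : Finset Y}
    {c : Finset ι} : c ∈ act G a I C ↔ c ∈ I ∧ ∃ y ∈ C, psi (G y) a c ≠ 0 := by
  unfold act
  rw [mem_filter]

/-- a nonzero private class makes the function nonconstant on the private block -/
lemma exists_block {G : Y → Finset ι → ℝ} {a : Finset ι} {I : Finset (Finset ι)} {C : Finset Y}
    (hI : ∀ x ∈ I, ∀ z ⊆ x, z ∈ I) {y : Y} (hy : y ∈ C) {z₀ v Uj U : Finset ι}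
    (hUI : U ∈ I) (ha : a ⊆ z₀) (hz₀ : z₀ ⊆ U) (hv : v ⊆ U) (hne : ¬ v ⊆ z₀)
    (hval : psi (G y) a v ≠ 0)
    (hun : ∀ c ∈ act G a I C, Uj ∪ c = Uj ∪ v → c = v)
    (hcl : ∀ c, c \ z₀ = v \ z₀ → Uj ∪ c = Uj ∪ v) :
    ∃ w ⊆ v \ z₀, ∑ s ∈ (z₀ ∪ w).powerset, G y s ≠ ∑ s ∈ z₀.powerset, G y s := by
  classical
  by_contra hcon
  push Not at hcon
  set b : Finset ι → ℝ := fun R => ∑ s : Finset ι, if s \ z₀ = R then G y s else 0 with hb
  set e : Finset ι → ℝ := fun w => ∑ s ∈ (z₀ ∪ w).powerset, G y s with he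
  have h1 : ∀ w, e w = ∑ R ∈ w.powerset, b R := by
    intro w
    simp only [he, hb]
    rw [Finset.sum_comm]
    have h2 : ∀ s ∈ (univ : Finset (Finset ι)),
        (∑ R ∈ w.powerset, if s \ z₀ = R then G y s else 0) =
        if s \ z₀ ⊆ w then G y s else 0 := by
      intro s _
      rw [Finset.sum_ite_eq]
      simp only [mem_powerset]
    rw [Finset.sum_congr rfl h2, ← Finset.sum_filter]
    refine Finset.sum_congr ?_ fun _ _ => rfl
    ext s
    simp only [mem_powerset, mem_filter, mem_univ, true_and]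
    exact (sdiff_le_iff (a := s) (b := z₀) (c := w)).symm
  have h3 := zeta_inv h1 (v \ z₀)
  have h4 : ∀ T ∈ (v \ z₀).powerset, (-1 : ℝ) ^ ((v \ z₀) \ T).card * e T =
      (-1 : ℝ) ^ ((v \ z₀) \ T).card * e ∅ := by
    intro T hT
    rw [mem_powerset] at hT
    have := hcon T hT
    simp only [he, union_empty]
    rw [this]
  rw [Finset.sum_congr rfl h4, ← Finset.sum_mul, sum_neg_one _ (by
    rw [Finset.sdiff_nonempty]; exact hne), zero_mul] at h3
  -- the coefficient of the block is the value of the class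
  have h5 : b (v \ z₀) = ∑ c : Finset ι, if c \ z₀ = v \ z₀ then psi (G y) a c else 0 := by
    simp only [hb, psi]
    have h6 : ∀ c : Finset ι, (if c \ z₀ = v \ z₀ then
        ∑ s : Finset ι, (if a ∪ s = c then G y s else 0) else 0) =
        ∑ s : Finset ι, if a ∪ s = c then (if c \ z₀ = v \ z₀ then G y s else 0) else 0 := by
      intro c
      split_ifs with h
      · rfl
      · simp
    rw [Finset.sum_congr rfl fun c _ => h6 c, Finset.sum_comm]
    refine Finset.sum_congr rfl fun s _ => ?_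
    rw [Finset.sum_ite_eq, if_pos (mem_univ _)]
    have h7 : (a ∪ s) \ z₀ = s \ z₀ := by
      rw [union_sdiff_distrib, sdiff_eq_empty_iff_subset.mpr ha, empty_union]
    rw [h7]
  rw [h5, Finset.sum_eq_single v] at h3
  · rw [if_pos rfl] at h3
    exact hval h3
  · intro c _ hc
    split_ifs with h
    · by_contra h8
      apply hc
      apply hun c _ (hcl c h)
      rw [mem_act]
      refine ⟨hI U hUI c ?_, y, hy, h8⟩
      intro i hi
      by_cases h9 : i ∈ z₀
      · exact hz₀ h9
      · have : i ∈ v \ z₀ := by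
          rw [← h]
          exact mem_sdiff.mpr ⟨hi, h9⟩
        exact hv (mem_sdiff.mp this).1
    · rfl
  · intro h
    exact absurd (mem_univ v) h

/-- **A good tuple has at most `8 d ^ 2` members.** -/
theorem good_le {d k : ℕ} (hd : 1 ≤ d) {G : Y → Finset ι → ℝ} {y : Y}
    {a : Finset ι} {I : Finset (Finset ι)} {C : Finset Y}
    (h01 : ∀ z ∈ I, (∑ s ∈ z.powerset, G y s = 0) ∨ (∑ s ∈ z.powerset, G y s = 1))
    (hr : (univ.filter fun s => G y s ≠ 0).card ≤ 2 ^ d)
    (hI : ∀ x ∈ I, ∀ z ⊆ x, z ∈ I) (V : Fin k → Finset ι)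
    (hU : a ∪ univ.sup V ∈ I) (hy : y ∈ C) (hval : ∀ j, psi (G y) a (V j) ≠ 0)
    (hpriv : ∀ j, ¬ V j ⊆ a ∪ (univ.erase j).sup V)
    (hun : ∀ j, ∀ c ∈ act G a I C, (a ∪ (univ.erase j).sup V) ∪ c =
      (a ∪ (univ.erase j).sup V) ∪ V j → c = V j) : k ≤ 8 * d ^ 2 := by
  classical
  set U := a ∪ univ.sup V with hUdef
  set Uj : Fin k → Finset ι := fun j => a ∪ (univ.erase j).sup V with hUj
  set z₀ : Finset ι := U.filter fun e => ∀ j, e ∉ V j \ Uj j with hz₀
  have memU : ∀ e, e ∈ U ↔ e ∈ a ∨ ∃ j, e ∈ V j := by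
    intro e
    simp [hUdef, Finset.mem_sup]
  have memUj : ∀ j e, e ∈ Uj j ↔ e ∈ a ∨ ∃ i, i ≠ j ∧ e ∈ V i := by
    intro j e
    simp [hUj, Finset.mem_sup]
  have mem0 : ∀ e, e ∈ z₀ ↔ e ∈ U ∧ ∀ j, e ∉ V j \ Uj j := by
    intro e
    rw [hz₀, mem_filter]
  have hV0 : ∀ j, V j \ z₀ = V j \ Uj j := by
    intro j
    ext e
    simp only [mem_sdiff]
    constructor
    · rintro ⟨h1, h2⟩
      refine ⟨h1, fun h3 => ?_⟩
      apply h2
      rw [mem0]
      refine ⟨(memU e).mpr (Or.inr ⟨j, h1⟩), fun i hi => ?_⟩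
      rw [mem_sdiff] at hi
      by_cases hij : i = j
      · subst hij
        exact hi.2 h3
      · exact hi.2 ((memUj i e).mpr (Or.inr ⟨j, fun h => hij h.symm, h1⟩))
    · rintro ⟨h1, h2⟩
      refine ⟨h1, fun h3 => ?_⟩
      rw [mem0] at h3
      exact h3.2 j (mem_sdiff.mpr ⟨h1, h2⟩)
  have hdisj : ∀ i j, i ≠ j → Disjoint (V i \ z₀) (V j \ z₀) := by
    intro i j hij
    rw [hV0, hV0, Finset.disjoint_left]
    intro e h1 h2
    rw [mem_sdiff] at h1 h2
    exact h1.2 ((memUj i e).mpr (Or.inr ⟨j, fun h => hij h.symm, h2.1⟩))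
  have hblock : ∀ j, ∃ w ⊆ V j \ z₀,
      ∑ s ∈ (z₀ ∪ w).powerset, G y s ≠ ∑ s ∈ z₀.powerset, G y s := by
    intro j
    apply exists_block (U := U) (Uj := Uj j) hI hy hU _ (filter_subset _ _) _ _ (hval j) (hun j)
    · intro c hc
      ext e
      simp only [mem_union]
      constructor
      · rintro (h | h)
        · exact Or.inl h
        · by_cases h0 : e ∈ z₀
          · have := (mem0 e).mp h0
            rcases (memU e).mp this.1 with h1 | ⟨i, h1⟩
            · exact Or.inl ((memUj j e).mpr (Or.inl h1))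
            · by_cases hij : i = j
              · subst hij
                exact Or.inr h1
              · exact Or.inl ((memUj j e).mpr (Or.inr ⟨i, hij, h1⟩))
          · have : e ∈ V j \ z₀ := by
              rw [← hc]
              exact mem_sdiff.mpr ⟨h, h0⟩
            exact Or.inr (mem_sdiff.mp this).1
      · rintro (h | h)
        · exact Or.inl h
        · by_cases h0 : e ∈ Uj j
          · exact Or.inl h0
          · have : e ∈ c \ z₀ := by
              rw [hc, hV0]
              exact mem_sdiff.mpr ⟨h, h0⟩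
            exact Or.inr (mem_sdiff.mp this).1
    · intro e he
      rw [mem0]
      refine ⟨(memU e).mpr (Or.inl he), fun i hi => ?_⟩
      rw [mem_sdiff] at hi
      exact hi.2 ((memUj i e).mpr (Or.inl he))
    · intro e he
      exact (memU e).mpr (Or.inr ⟨j, he⟩)
    · intro h
      have h1 : V j \ z₀ = ∅ := sdiff_eq_empty_iff_subset.mpr h
      rw [hV0] at h1
      exact hpriv j (sdiff_eq_empty_iff_subset.mp h1)
  choose w hw hwne using hblock
  -- the cube spanned by the blocks
  set Z : Finset (Fin k) → Finset ι := fun T => z₀ ∪ T.sup w with hZ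
  have memZ : ∀ T e, e ∈ Z T ↔ e ∈ z₀ ∨ ∃ j ∈ T, e ∈ w j := by
    intro T e
    simp [hZ, Finset.mem_sup]
  have hZI : ∀ T, Z T ∈ I := by
    intro T
    refine hI U hU _ fun e he => ?_
    rcases (memZ T e).mp he with h | ⟨j, _, h⟩
    · exact ((mem0 e).mp h).1
    · exact (memU e).mpr (Or.inr ⟨j, (mem_sdiff.mp (hw j h)).1⟩)
  set J : Finset ι → Finset (Fin k) := fun s => univ.filter fun j => ¬ Disjoint s (w j) with hJ
  have hsub : ∀ s T, s ⊆ Z T ↔ s ⊆ Z univ ∧ J s ⊆ T := by
    intro s T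
    constructor
    · intro h
      refine ⟨fun e he => ?_, fun j hj => ?_⟩
      · rcases (memZ T e).mp (h he) with h1 | ⟨j, _, h1⟩
        · exact (memZ _ e).mpr (Or.inl h1)
        · exact (memZ _ e).mpr (Or.inr ⟨j, mem_univ j, h1⟩)
      · simp only [hJ, mem_filter, mem_univ, true_and] at hj
        rw [Finset.not_disjoint_iff] at hj
        obtain ⟨e, he, hej⟩ := hj
        rcases (memZ T e).mp (h he) with h1 | ⟨i, hi, h1⟩
        · exact absurd h1 (mem_sdiff.mp (hw j hej)).2
        · by_cases hij : i = j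
          · subst hij
            exact hi
          · exact absurd (hw j hej) (Finset.disjoint_left.mp (hdisj i j hij) (hw i h1))
    · rintro ⟨h1, h2⟩ e he
      rcases (memZ _ e).mp (h1 he) with h3 | ⟨j, _, h3⟩
      · exact (memZ _ e).mpr (Or.inl h3)
      · refine (memZ _ e).mpr (Or.inr ⟨j, h2 ?_, h3⟩)
        simp only [hJ, mem_filter, mem_univ, true_and]
        rw [Finset.not_disjoint_iff]
        exact ⟨e, he, h3⟩
  have key := sens (ι := Fin k) hd
    (c := fun S => ∑ s ∈ (Z univ).powerset, if J s = S then G y s else 0)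
    (h := fun T => ∑ s ∈ (Z T).powerset, G y s) ?_ (fun T => h01 _ (hZI T)) ?_ ?_
  · rwa [Fintype.card_fin] at key
  · intro T
    rw [Finset.sum_comm]
    have h2 : ∀ s ∈ (Z univ).powerset, (∑ S ∈ T.powerset, if J s = S then G y s else 0) =
        if J s ⊆ T then G y s else 0 := by
      intro s _
      rw [Finset.sum_ite_eq]
      simp only [mem_powerset]
    rw [Finset.sum_congr rfl h2, ← Finset.sum_filter]
    refine Finset.sum_congr ?_ fun _ _ => rfl
    ext s
    simp only [mem_powerset, mem_filter]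
    exact hsub s T
  · refine le_trans ?_ hr
    refine le_trans (Finset.card_le_card ?_)
      (Finset.card_image_le (s := univ.filter fun s => G y s ≠ 0) (f := J))
    intro S hS
    rw [mem_filter] at hS
    obtain ⟨s, _, h1⟩ := Finset.exists_ne_zero_of_sum_ne_zero hS.2
    by_cases h2 : J s = S
    · rw [if_pos h2] at h1
      exact mem_image.mpr ⟨s, mem_filter.mpr ⟨mem_univ s, h1⟩, h2⟩
    · rw [if_neg h2] at h1
      exact absurd rfl h1
  · intro j
    simpa [hZ] using hwne j

end Pool.Agent.Q174.AF
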