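import Pool.Agent.Q174.AF.Struct
import Pool.Agent.Q174.TD.Cor

/-!
# The recursion: decision trees for functions of the intersection
-/

set_option autoImplicit false

namespace Pool.Agent.Q174.AF

open Finset Pool.Agent.Q174.TD

section alg

variable {X Y : Type*} (K : Type*) [Field K] (F : X → Y → Bool)

lemma mul_mem_W {k : ℕ} {f : X → K} (hf : f ∈ W K F k) {φ : X → K} (hφ : φ ∈ W K F 1) :
    f * φ ∈ W K F (k + 1) := by
  classical
  induction hφ using Submodule.span_induction with
  | mem g hg =>
    obtain ⟨T, hT, rfl⟩ := hg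
    rcases Nat.lt_or_ge T.card 1 with h | h
    · have : T = ∅ := by
        rw [← Finset.card_eq_zero]
        omega
      subst this
      rw [mon_empty, mul_one]
      exact W_mono K F (Nat.le_succ k) hf
    · obtain ⟨y, rfl⟩ := Finset.card_eq_one.mp (le_antisymm hT h)
      have : mon K F {y} = col K F y := by
        funext x
        simp [mon, col]
      rw [this]
      exact mul_col_mem_W K F hf y
  | zero => rw [mul_zero]; exact zero_mem _
  | add g h _ _ hg hh => rw [mul_add]; exact add_mem hg hh
  | smul c g _ hg => rw [mul_smul_comm]; exact Submodule.smul_mem _ _ hg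

lemma prod_mem_W {γ : Type*} (T : Finset γ) (φ : γ → X → K) (h : ∀ c ∈ T, φ c ∈ W K F 1) :
    (∏ c ∈ T, φ c) ∈ W K F T.card := by
  classical
  induction T using Finset.induction_on with
  | empty => rw [Finset.prod_empty]; exact one_mem_W K F _
  | insert c T hc ih =>
    rw [Finset.prod_insert hc, card_insert_of_notMem hc, mul_comm]
    exact mul_mem_W K F (ih fun c' hc' => h c' (mem_insert_of_mem hc')) (h c (mem_insert_self c T))

variable {K F}

lemma Dec.mono_budget {k m m' : ℕ} {A : Set X} {B : Set Y} (h : Dec K F k m A B) (hm : m ≤ m') :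
    Dec K F k m' A B := by
  induction hm with
  | refl => exact h
  | step _ ih => exact ih.succ

lemma dec_of_list {γ : Type*} [DecidableEq γ] {k : ℕ} (T : Finset γ) (φ : γ → X → K)
    (hφ : ∀ c ∈ T, φ c ∈ W K F k) (A : Set X) (B : Set Y)
    (h : ∀ x ∈ A, ∀ x' ∈ A, (∀ c ∈ T, φ c x = 0 ↔ φ c x' = 0) → ∀ y ∈ B, F x y = F x' y) :
    Dec K F k T.card A B := by
  induction T using Finset.induction_on generalizing A with
  | empty => exact Dec.rows _ _ _ fun x hx x' hx' y hy => h x hx x' hx' (by simp) y hy
  | insert c T hc ih =>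
    rw [card_insert_of_notMem hc]
    have h1 : ∀ (A' : Set X), A' ⊆ A → (∀ x ∈ A', ∀ x' ∈ A', (φ c x = 0 ↔ φ c x' = 0)) →
        Dec K F k T.card A' B := by
      intro A' hA' hc'
      refine ih (fun c' hc'' => hφ c' (mem_insert_of_mem hc'')) A' fun x hx x' hx' hT y hy => ?_
      refine h x (hA' hx) x' (hA' hx') (fun c' hc'' => ?_) y hy
      rcases mem_insert.mp hc'' with rfl | hc''
      · exact hc' x hx x' hx'
      · exact hT c' hc''
    refine Dec.row _ _ _ (φ c) (hφ c (mem_insert_self c T)) (h1 _ Set.inter_subset_left ?_)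
      (Dec.succ (h1 _ Set.inter_subset_left ?_))
    · intro x hx x' hx'
      exact ⟨fun h => absurd h hx.2, fun h => absurd h hx'.2⟩
    · intro x hx x' hx'
      exact ⟨fun _ => hx'.2, fun _ => hx.2⟩

end alg

variable {ι : Type*} [DecidableEq ι] [Fintype ι] {X Y : Type*}

lemma act_mono {G : Y → Finset ι → ℝ} {a : Finset ι} {I I' : Finset (Finset ι)} {C C' : Finset Y}
    (hI : I' ⊆ I) (hC : C' ⊆ C) : act G a I' C' ⊆ act G a I C := by
  intro c hc
  rw [mem_act] at hc ⊢
  obtain ⟨h1, y, hy, h2⟩ := hc
  exact ⟨hI h1, y, hC hy, h2⟩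

/-- the new classes are joins of the old ones -/
lemma act_base {G : Y → Finset ι → ℝ} {a a' : Finset ι} (haa' : a ⊆ a') {I : Finset (Finset ι)}
    {C : Finset Y} (hI : ∀ x ∈ I, ∀ z ⊆ x, z ∈ I) :
    act G a' I C ⊆ ((act G a I C).image fun c => a' ∪ c).filter (· ∈ I) := by
  classical
  intro c hc
  rw [mem_act] at hc
  obtain ⟨hcI, y, hy, h⟩ := hc
  rw [mem_filter, mem_image]
  refine ⟨?_, hcI⟩
  have h1 : psi (G y) a' c = ∑ c' : Finset ι, if a' ∪ c' = c then psi (G y) a c' else 0 := by
    unfold psi
    have h6 : ∀ c' : Finset ι, (if a' ∪ c' = c then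
        ∑ s : Finset ι, (if a ∪ s = c' then G y s else 0) else 0) =
        ∑ s : Finset ι, if a ∪ s = c' then (if a' ∪ c' = c then G y s else 0) else 0 := by
      intro c'
      split_ifs with h
      · rfl
      · simp
    rw [Finset.sum_congr rfl fun c' _ => h6 c', Finset.sum_comm]
    refine Finset.sum_congr rfl fun s _ => ?_
    rw [Finset.sum_ite_eq, if_pos (mem_univ _)]
    have h7 : a' ∪ (a ∪ s) = a' ∪ s := by
      rw [← union_assoc, union_eq_left.mpr haa']
    rw [h7]
  rw [h1] at h
  obtain ⟨c', _, h2⟩ := Finset.exists_ne_zero_of_sum_ne_zero h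
  by_cases h3 : a' ∪ c' = c
  · rw [if_pos h3] at h2
    refine ⟨c', ?_, h3⟩
    rw [mem_act]
    exact ⟨hI c hcI c' (by rw [← h3]; exact subset_union_right), y, hy, h2⟩
  · rw [if_neg h3] at h2
    exact absurd rfl h2

/-- the value at a row in terms of the active classes -/
lemma row_expand {G : Y → Finset ι → ℝ} {a : Finset ι} {I : Finset (Finset ι)} {C : Finset Y}
    (hI : ∀ x ∈ I, ∀ z ⊆ x, z ∈ I) {x : Finset ι} {y : Y} (hx : x ∈ I) (hax : a ⊆ x)
    (hy : y ∈ C) :
    ∑ s ∈ x.powerset, G y s = ∑ c ∈ act G a I C, if c ⊆ x then psi (G y) a c else 0 := by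
  classical
  have h1 : ∑ s ∈ x.powerset, G y s = ∑ c : Finset ι, if c ⊆ x then psi (G y) a c else 0 := by
    unfold psi
    have h6 : ∀ c : Finset ι, (if c ⊆ x then
        ∑ s : Finset ι, (if a ∪ s = c then G y s else 0) else 0) =
        ∑ s : Finset ι, if a ∪ s = c then (if c ⊆ x then G y s else 0) else 0 := by
      intro c'
      split_ifs with h
      · rfl
      · simp
    rw [Finset.sum_congr rfl fun c' _ => h6 c', Finset.sum_comm]
    have h7 : ∀ s ∈ (univ : Finset (Finset ι)),
        (∑ c : Finset ι, if a ∪ s = c then (if c ⊆ x then G y s else 0) else 0) =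
        if s ⊆ x then G y s else 0 := by
      intro s _
      rw [Finset.sum_ite_eq, if_pos (mem_univ _)]
      have : a ∪ s ⊆ x ↔ s ⊆ x :=
        ⟨fun h => subset_union_right.trans h, fun h => union_subset hax h⟩
      simp only [this]
    rw [Finset.sum_congr rfl h7, ← Finset.sum_filter]
    refine Finset.sum_congr ?_ fun _ _ => rfl
    ext s
    simp only [mem_powerset, mem_filter, mem_univ, true_and]
  rw [h1]
  symm
  apply Finset.sum_subset (subset_univ _)
  intro c _ hc
  split_ifs with h
  · by_contra h2
    apply hc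
    rw [mem_act]
    exact ⟨hI x hx c h, y, hy, h2⟩
  · rfl

variable {F : X → Y → Bool} {α : X → Finset ι}

/-- **The recursion.** -/
theorem main_dec {d k q : ℕ} (hd : 1 ≤ d) (hk : k = 8 * d ^ 2 + 1) (hq : q = 8 * k)
    {G : Y → Finset ι → ℝ} {P : Finset (Finset ι)} (hP : P.card ≤ 2 ^ d)
    (hGP : ∀ y s, G y s ≠ 0 → s ∈ P)
    (hF : ∀ x y, (if F x y then (1 : ℝ) else 0) = ∑ s ∈ (α x).powerset, G y s)
    (hα : ∀ s ∈ P, (fun x => if s ⊆ α x then (1 : ℝ) else 0) ∈ W ℝ F 1)
    (hG : ∀ s ∈ P, (fun y => G y s) ∈ W ℝ (fun y x => F x y) 1)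
    (i : ℕ) : ∀ (n : ℕ) (a : Finset ι) (I : Finset (Finset ι)) (C : Finset Y),
      I.card + C.card = n → (∀ x ∈ I, ∀ z ⊆ x, z ∈ I) →
      (∀ y ∈ C, ∀ z ∈ I, (∑ s ∈ z.powerset, G y s = 0) ∨ (∑ s ∈ z.powerset, G y s = 1)) →
      (act G a I C).card * (q - 1) ^ i ≤ q ^ i →
      Dec ℝ F k (i + 2 * k) {x | α x ∈ I ∧ a ⊆ α x} {y | y ∈ C} := by
  classical
  have hk1 : 1 ≤ k := by omega
  have hr : ∀ y, (univ.filter fun s => G y s ≠ 0).card ≤ 2 ^ d := fun y =>
    (card_le_card fun s hs => hGP y s (mem_filter.mp hs).2).trans hP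
  have hσ : ∀ (a : Finset ι) (I : Finset (Finset ι)) (C : Finset Y),
      ∃ σ : Finset ι → Finset ι, ∀ c ∈ act G a I C, a ∪ σ c = c ∧ σ c ∈ P := by
    intro a I C
    have : ∀ c, ∃ s, c ∈ act G a I C → a ∪ s = c ∧ s ∈ P := by
      intro c
      by_cases hc : c ∈ act G a I C
      · obtain ⟨_, y, _, h⟩ := mem_act.mp hc
        obtain ⟨s, h1, h2⟩ := exists_of_psi_ne_zero h
        exact ⟨s, fun _ => ⟨h1, hGP y s h2⟩⟩
      · exact ⟨∅, fun h => absurd h hc⟩
    choose σ hσ using this
    exact ⟨σ, hσ⟩
  -- the final stage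
  have base : ∀ (i : ℕ) (a : Finset ι) (I : Finset (Finset ι)) (C : Finset Y),
      (∀ x ∈ I, ∀ z ⊆ x, z ∈ I) → (act G a I C).card ≤ 2 * k →
      Dec ℝ F k (i + 2 * k) {x | α x ∈ I ∧ a ⊆ α x} {y | y ∈ C} := by
    intro i a I C hI hc
    obtain ⟨σ, hσ⟩ := hσ a I C
    refine Dec.mono_budget (dec_of_list (act G a I C)
      (fun c x => if σ c ⊆ α x then (1 : ℝ) else 0) ?_ _ _ ?_) (by omega)
    · intro c hc
      exact W_mono ℝ F hk1 (hα _ (hσ c hc).2)
    · rintro x ⟨hxI, hax⟩ x' ⟨hxI', hax'⟩ h y hy
      have h1 := row_expand (G := G) hI hxI hax hy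
      have h2 := row_expand (G := G) hI hxI' hax' hy
      have h3 : ∀ c ∈ act G a I C, (c ⊆ α x ↔ c ⊆ α x') := by
        intro c hc
        have h4 : ∀ z, a ⊆ z → (c ⊆ z ↔ σ c ⊆ z) := by
          intro z hz
          constructor
          · intro h
            refine subset_trans ?_ h
            conv_rhs => rw [← (hσ c hc).1]
            exact subset_union_right
          · intro h
            rw [← (hσ c hc).1]
            exact union_subset hz h
        rw [h4 _ hax, h4 _ hax']
        have h5 := h c hc
        by_cases h6 : σ c ⊆ α x <;> by_cases h7 : σ c ⊆ α x' <;> simp [h6, h7] at h5 ⊢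
      have h8 : (if F x y then (1 : ℝ) else 0) = if F x' y then (1 : ℝ) else 0 := by
        rw [hF, hF, h1, h2]
        refine Finset.sum_congr rfl fun c hc => ?_
        simp only [h3 c hc]
      cases h9 : F x y <;> cases h10 : F x' y <;> simp [h9, h10] at h8 ⊢
  induction i with
  | zero =>
    intro n a I C _ hI _ hact
    refine base 0 a I C hI ?_
    simp only [pow_zero, mul_one] at hact
    omega
  | succ i ihi =>
    intro n
    induction n using Nat.strong_induction_on with
    | _ n ihn =>
      intro a I C hn hI h01 hact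
      by_cases hρ : (act G a I C).card ≤ 2 * k
      · exact base (i + 1) a I C hI hρ
      push Not at hρ
      have e : i + 1 + 2 * k = (i + 2 * k) + 1 := by ring
      have hqpos : 0 < q := by omega
      have hstep : ∀ m : ℕ, q * m ≤ (q - 1) * (act G a I C).card → m * (q - 1) ^ i ≤ q ^ i := by
        intro m hm
        apply Nat.le_of_mul_le_mul_left _ hqpos
        calc q * (m * (q - 1) ^ i) = (q * m) * (q - 1) ^ i := by ring
          _ ≤ ((q - 1) * (act G a I C).card) * (q - 1) ^ i := Nat.mul_le_mul_right _ hm
          _ = (act G a I C).card * (q - 1) ^ (i + 1) := by ring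
          _ ≤ q ^ (i + 1) := hact
          _ = q * q ^ i := by ring
      rcases structural hd hk hq h01 (fun y _ => hr y) hI hρ with
        ⟨T, hT, hTk, hTI, hTq⟩ | ⟨T, hT, hTk, hTY, hTq⟩
      · -- a row question
        obtain ⟨σ, hσ⟩ := hσ a I C
        set a' := a ∪ T.sup id with ha'
        set φ : X → ℝ := ∏ c ∈ T, fun x => if σ c ⊆ α x then (1 : ℝ) else 0 with hφ
        have hφW : Pol ℝ F k φ := by
          refine W_mono ℝ F (show T.card ≤ k by omega) ?_
          exact prod_mem_W ℝ F T _ fun c hc => hα _ (hσ c (hT hc)).2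
        have hφx : ∀ x, a ⊆ α x → (φ x ≠ 0 ↔ a' ⊆ α x) := by
          intro x hx
          rw [hφ, Finset.prod_apply, Finset.prod_ne_zero_iff, ha']
          constructor
          · intro h
            refine union_subset hx (Finset.sup_le fun c hc => ?_)
            have h1 := h c hc
            have h2 : σ c ⊆ α x := by
              by_contra h3
              rw [if_neg h3] at h1
              exact h1 rfl
            rw [id, ← (hσ c (hT hc)).1]
            exact union_subset hx h2
          · intro h c hc
            have h1 : c ⊆ α x :=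
              (Finset.le_sup (f := id) hc).trans (subset_union_right.trans h)
            have h2 : σ c ⊆ α x := by
              refine subset_trans ?_ h1
              conv_rhs => rw [← (hσ c (hT hc)).1]
              exact subset_union_right
            rw [if_pos h2]
            exact one_ne_zero
        rw [e]
        refine Dec.row _ _ _ φ hφW ?_ ?_
        · refine Dec.mono (ihi _ a' I C rfl hI h01 (hstep _ ?_)) ?_ le_rfl
          · refine le_trans (Nat.mul_le_mul_left q (card_le_card
              (act_base (subset_union_left : a ⊆ a') hI))) hTq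
          · rintro x ⟨⟨hx, hax⟩, hφx'⟩
            exact ⟨hx, (hφx x hax).mp hφx'⟩
        · set I' := I.filter fun z => ¬ a' ⊆ z with hI'
          have hlt : I'.card < I.card := by
            apply card_lt_card
            refine ⟨filter_subset _ _, fun h => ?_⟩
            have := h hTI
            rw [hI', mem_filter] at this
            exact this.2 (Subset.refl _)
          rw [← e]
          refine Dec.mono (ihn (I'.card + C.card) (by omega) a I' C rfl ?_ ?_ ?_) ?_ le_rfl
          · intro x hx z hz
            rw [hI', mem_filter] at hx ⊢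
            exact ⟨hI x hx.1 z hz, fun h => hx.2 (h.trans hz)⟩
          · intro y hy z hz
            exact h01 y hy z (mem_filter.mp hz).1
          · exact le_trans (Nat.mul_le_mul_right _ (card_le_card
              (act_mono (filter_subset _ _) (Subset.refl _)))) hact
          · rintro x ⟨⟨hx, hax⟩, hφx'⟩
            refine ⟨?_, hax⟩
            rw [hI', mem_filter]
            refine ⟨hx, fun h => ?_⟩
            exact (hφx x hax).mpr h hφx'
      · -- a column question
        set φ : Y → ℝ := ∏ c ∈ T, fun y => psi (G y) a c with hφ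
        have hφW : Pol ℝ (fun y x => F x y) k φ := by
          refine W_mono ℝ _ (show T.card ≤ k by omega) ?_
          refine prod_mem_W ℝ _ T _ fun c _ => ?_
          have h1 : (fun y => psi (G y) a c) =
              ∑ s ∈ P.filter (fun s => a ∪ s = c), fun y => G y s := by
            funext y
            rw [Finset.sum_apply]
            unfold psi
            rw [← Finset.sum_filter]
            symm
            apply Finset.sum_subset
            · intro s hs
              simp only [mem_filter, mem_univ, true_and] at hs ⊢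
              exact hs.2
            · intro s hs hs'
              simp only [mem_filter, mem_univ, true_and, not_and] at hs hs'
              by_contra h3
              exact hs' (hGP y s h3) hs
          rw [h1]
          refine Submodule.sum_mem _ fun s hs => hG s (mem_filter.mp hs).1
        have hφy : ∀ y, φ y ≠ 0 ↔ ∀ c ∈ T, psi (G y) a c ≠ 0 := by
          intro y
          rw [hφ, Finset.prod_apply, Finset.prod_ne_zero_iff]
        rw [e]
        refine Dec.col _ _ _ φ hφW ?_ ?_
        · set C' := C.filter fun y => ∀ c ∈ T, psi (G y) a c ≠ 0 with hC'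
          refine Dec.mono (ihi _ a I C' rfl hI
            (fun y hy => h01 y (mem_filter.mp hy).1) (hstep _ (hTq C' ?_))) le_rfl ?_
          · intro y hy
            exact mem_filter.mp hy
          · rintro y ⟨hy, hφy'⟩
            exact mem_filter.mpr ⟨hy, (hφy y).mp hφy'⟩
        · set C' := C.filter fun y => ¬ ∀ c ∈ T, psi (G y) a c ≠ 0 with hC'
          have hlt : C'.card < C.card := by
            apply card_lt_card
            refine ⟨filter_subset _ _, fun h => ?_⟩
            obtain ⟨y, hy, hy'⟩ := hTY
            have := h hy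
            rw [hC', mem_filter] at this
            exact this.2 hy'
          rw [← e]
          refine Dec.mono (ihn (I.card + C'.card) (by omega) a I C' rfl hI
            (fun y hy => h01 y (mem_filter.mp hy).1) ?_) le_rfl ?_
          · exact le_trans (Nat.mul_le_mul_right _ (card_le_card
              (act_mono (Subset.refl _) (filter_subset _ _)))) hact
          · rintro y ⟨hy, hφy'⟩
            refine mem_filter.mpr ⟨hy, fun h => ?_⟩
            exact (hφy y).mpr h hφy'

end Pool.Agent.Q174.AF
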