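import Pool.Agent.Q174.AF.Main

/-!
# Matrices whose rows form a meet semilattice
-/

set_option autoImplicit false

namespace Pool.Agent.Q174.AF

open Finset Pool.Agent.Q174.TD

section zeta

variable {P : Type*} [PartialOrder P] [Fintype P] [DecidableLE P]

/-- summation over the elements below -/
def zetaMap : (P → ℝ) →ₗ[ℝ] (P → ℝ) where
  toFun g := fun x => ∑ s : P, if s ≤ x then g s else 0
  map_add' g h := by
    funext x
    simp only [Pi.add_apply, ← Finset.sum_add_distrib]
    refine Finset.sum_congr rfl fun s _ => ?_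
    split_ifs <;> simp
  map_smul' c g := by
    funext x
    simp only [Pi.smul_apply, smul_eq_mul, RingHom.id_apply, Finset.mul_sum]
    refine Finset.sum_congr rfl fun s _ => ?_
    split_ifs <;> simp

lemma zetaMap_injective : Function.Injective (zetaMap (P := P)) := by
  classical
  rw [← LinearMap.ker_eq_bot, LinearMap.ker_eq_bot']
  intro g hg
  funext x
  induction x using WellFoundedLT.induction with
  | ind x ih =>
    have h1 : ∑ s : P, (if s ≤ x then g s else 0) = 0 := congrFun hg x
    rw [Finset.sum_eq_single x] at h1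
    · simpa using h1
    · intro s _ hs
      split_ifs with h
      · exact ih s (lt_of_le_of_ne h hs)
      · rfl
    · intro h
      exact absurd (mem_univ x) h

lemma zetaMap_bijective : Function.Bijective (zetaMap (P := P)) :=
  ⟨zetaMap_injective, LinearMap.injective_iff_surjective.mp zetaMap_injective⟩

/-- the inverse of the zeta map -/
noncomputable def moeb : (P → ℝ) →ₗ[ℝ] (P → ℝ) :=
  (LinearEquiv.ofBijective (zetaMap (P := P)) zetaMap_bijective).symm.toLinearMap

lemma zeta_moeb (f : P → ℝ) (x : P) : f x = ∑ s : P, if s ≤ x then moeb f s else 0 := by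
  have h1 : zetaMap (moeb f) = f :=
    (LinearEquiv.ofBijective (zetaMap (P := P)) zetaMap_bijective).apply_symm_apply f
  exact (congrFun h1 x).symm

open Classical in
/-- the indicator function of a point -/
noncomputable def dlt (x : P) : P → ℝ := fun z => if z = x then 1 else 0

lemma moeb_expand (f : P → ℝ) (s : P) : moeb f s = ∑ x : P, moeb (dlt x) s * f x := by
  classical
  have h1 : f = ∑ x : P, f x • dlt x := by
    funext z
    rw [Finset.sum_apply]
    simp only [dlt, Pi.smul_apply, smul_eq_mul, mul_ite, mul_one, mul_zero]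
    rw [Finset.sum_ite_eq, if_pos (mem_univ z)]
  conv_lhs => rw [h1, map_sum]
  rw [Finset.sum_apply]
  refine Finset.sum_congr rfl fun x _ => ?_
  rw [map_smul, Pi.smul_apply, smul_eq_mul, mul_comm]

end zeta

lemma exists_moebius_dual {P : Type*} [PartialOrder P] [Fintype P] [DecidableLE P] (f : P → ℝ) :
    ∃ g : P → ℝ, ∀ x, f x = ∑ s : P, if x ≤ s then g s else 0 := by
  classical
  have hg := zeta_moeb (P := Pᵒᵈ) (fun x => f (OrderDual.ofDual x))
  set g := moeb (P := Pᵒᵈ) (fun x => f (OrderDual.ofDual x)) with hgdef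
  refine ⟨fun x => g (OrderDual.toDual x), fun x => ?_⟩
  have h1 := hg (OrderDual.toDual x)
  rw [OrderDual.ofDual_toDual] at h1
  rw [h1]
  refine Fintype.sum_equiv OrderDual.ofDual _ _ fun s => ?_
  have : (s ≤ OrderDual.toDual x) ↔ (x ≤ OrderDual.ofDual s) := Iff.rfl
  simp only [this, OrderDual.toDual_ofDual]

lemma span_col_le_W {X Y : Type*} (K : Type*) [Field K] (F : X → Y → Bool) :
    Submodule.span K (Set.range (col K F)) ≤ W K F 1 := by
  rw [Submodule.span_le]
  rintro _ ⟨y, rfl⟩
  have : col K F y = mon K F {y} := by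
    funext x
    simp [mon, col]
  rw [this]
  exact mon_mem_W K F (by simp)

variable {L : Type*} [SemilatticeInf L] [Fintype L] [DecidableEq L] [DecidableLE L]
variable {Y : Type*} {F : L → Y → Bool}

/-- Möbius coefficients of the columns -/
noncomputable def mc (F : L → Y → Bool) (y : Y) : L → ℝ := moeb (col ℝ F y)

omit [DecidableEq L] in
lemma mc_spec (x : L) (y : Y) :
    (if F x y then (1 : ℝ) else 0) = ∑ s : L, if s ≤ x then mc F y s else 0 :=
  zeta_moeb (col ℝ F y) x

omit [DecidableEq L] in
/-- the coefficients are in the row space -/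
lemma mc_mem_W (s : L) : (fun y => mc F y s) ∈ W ℝ (fun y x => F x y) 1 := by
  classical
  apply span_col_le_W
  have h1 : (fun y => mc F y s) =
      ∑ x : L, moeb (dlt x) s • col ℝ (fun y x => F x y) x := by
    funext y
    rw [Finset.sum_apply]
    exact moeb_expand (col ℝ F y) s
  rw [h1]
  exact Submodule.sum_mem _ fun y _ => Submodule.smul_mem _ _ (Submodule.subset_span ⟨y, rfl⟩)

/-- the set of columns is closed under `F (·) y ↦ F (· ⊓ a) y` -/
def MeetClosed (F : L → Y → Bool) : Prop := ∀ (a : L) (y : Y), ∃ y', ∀ x, F x y' = F (x ⊓ a) y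

/-- the indicator functions of the principal filters are in the column space -/
lemma filter_mem_span (hF : MeetClosed F) {s₀ : L} {y : Y} (hs₀ : mc F y s₀ ≠ 0) :
    (fun x => if s₀ ≤ x then (1 : ℝ) else 0) ∈ Submodule.span ℝ (Set.range (col ℝ F)) := by
  obtain ⟨v, hv⟩ := exists_moebius_dual (P := L) (fun s => if s = s₀ then (1 : ℝ) else 0)
  choose t ht using fun a => hF a y
  have h1 : (fun x => if s₀ ≤ x then (1 : ℝ) else 0) =
      ∑ a : L, ((mc F y s₀)⁻¹ * v a) • col ℝ F (t a) := by
    funext x
    rw [Finset.sum_apply]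
    simp only [Pi.smul_apply, smul_eq_mul]
    have h2 : ∀ a : L, (mc F y s₀)⁻¹ * v a * col ℝ F (t a) x =
        ∑ s : L, (mc F y s₀)⁻¹ * (if s ≤ x then mc F y s else 0) * (if s ≤ a then v a else 0) := by
      intro a
      have h3 : col ℝ F (t a) x = ∑ s : L, if s ≤ x ∧ s ≤ a then mc F y s else 0 := by
        unfold col
        rw [ht a x, mc_spec]
        refine Finset.sum_congr rfl fun s _ => ?_
        simp only [le_inf_iff]
      rw [h3, Finset.mul_sum]
      refine Finset.sum_congr rfl fun s _ => ?_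
      by_cases h4 : s ≤ x <;> by_cases h5 : s ≤ a <;> simp [h4, h5]
      ring
    rw [Finset.sum_congr rfl fun a _ => h2 a, Finset.sum_comm]
    have h6 : ∀ s : L, (∑ a : L, (mc F y s₀)⁻¹ * (if s ≤ x then mc F y s else 0) *
        (if s ≤ a then v a else 0)) =
        (mc F y s₀)⁻¹ * (if s ≤ x then mc F y s else 0) * (if s = s₀ then 1 else 0) := by
      intro s
      rw [← Finset.mul_sum, ← hv s]
    rw [Finset.sum_congr rfl fun s _ => h6 s, Finset.sum_eq_single s₀]
    · rw [if_pos rfl, mul_one]
      split_ifs with h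
      · rw [inv_mul_cancel₀ hs₀]
      · rw [mul_zero]
    · intro s _ hs
      rw [if_neg hs, mul_zero]
    · intro h
      exact absurd (mem_univ s₀) h
  rw [h1]
  exact Submodule.sum_mem _ fun y _ => Submodule.smul_mem _ _ (Submodule.subset_span ⟨_, rfl⟩)

open Classical in
/-- the support of the Möbius coefficients -/
noncomputable def supp (F : L → Y → Bool) : Finset L := univ.filter fun s => ∃ y, mc F y s ≠ 0

omit [DecidableEq L] in
lemma mem_supp {s : L} : s ∈ supp F ↔ ∃ y, mc F y s ≠ 0 := by
  simp [supp]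

/-- the size of the support is at most the rank -/
lemma card_supp_le [Fintype Y] (hF : MeetClosed F) : (supp F).card ≤ rk ℝ F := by
  have h1 : rk ℝ F = Module.finrank ℝ (Submodule.span ℝ (Set.range (col ℝ F))) := by
    unfold rk
    rw [Matrix.rank_eq_finrank_span_cols]
    rfl
  rw [h1]
  set u : supp F → Submodule.span ℝ (Set.range (col ℝ F)) := fun s =>
    ⟨fun x => if (s : L) ≤ x then (1 : ℝ) else 0, by
      obtain ⟨y, hy⟩ := mem_supp.mp s.2
      exact filter_mem_span hF hy⟩ with hu
  have hfull : LinearIndependent ℝ (fun (s : L) (x : L) => if s ≤ x then (1 : ℝ) else 0) := by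
    rw [Fintype.linearIndependent_iff]
    intro c hc s
    have h2 : zetaMap c = 0 := by
      funext x
      have h3 := congrFun hc x
      rw [Finset.sum_apply] at h3
      simp only [Pi.smul_apply, smul_eq_mul, mul_ite, mul_one, mul_zero] at h3
      exact h3
    have h3 := zetaMap_injective (h2.trans (map_zero zetaMap).symm)
    exact congrFun h3 s
  have hli : LinearIndependent ℝ u := by
    apply LinearIndependent.of_comp (Submodule.subtype _)
    exact hfull.comp (fun s : supp F => (s : L)) Subtype.val_injective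
  have h4 := hli.fintype_card_le_finrank
  rwa [Fintype.card_coe] at h4

/-- the code of `s`: the elements which are not above `s` -/
def code (s : L) : Finset L := univ.filter fun m => ¬ s ≤ m

omit [DecidableEq L] in
lemma mem_code {s m : L} : m ∈ code s ↔ ¬ s ≤ m := by
  simp [code]

omit [DecidableEq L] in
lemma code_subset {s x : L} : code s ⊆ code x ↔ s ≤ x := by
  constructor
  · intro h
    by_contra h1
    exact mem_code.mp (h (mem_code.mpr h1)) le_rfl
  · intro h m hm
    rw [mem_code] at hm ⊢
    exact fun h1 => hm (h.trans h1)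

omit [DecidableEq L] in
lemma code_ne_univ (s : L) : code s ≠ univ := by
  intro h
  have := mem_univ s
  rw [← h, mem_code] at this
  exact this le_rfl

/-- the Möbius coefficients on the Boolean lattice -/
noncomputable def ext (F : L → Y → Bool) (y : Y) (S : Finset L) : ℝ :=
  ∑ s : L, if code s = S then mc F y s else 0

lemma sum_ext (y : Y) (z : Finset L) : ∑ S ∈ z.powerset, ext F y S =
    ∑ s : L, if code s ⊆ z then mc F y s else 0 := by
  unfold ext
  rw [Finset.sum_comm]
  refine Finset.sum_congr rfl fun s _ => ?_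
  rw [Finset.sum_ite_eq]
  simp only [mem_powerset]

lemma ext_01 (y : Y) {z : Finset L} (hz : z ≠ univ) :
    (∑ S ∈ z.powerset, ext F y S = 0) ∨ (∑ S ∈ z.powerset, ext F y S = 1) := by
  rw [sum_ext]
  have hne : (zᶜ).Nonempty := by
    rw [← Finset.compl_ne_univ_iff_nonempty, compl_compl]
    exact hz
  have h1 : ∀ s : L, code s ⊆ z ↔ s ≤ (zᶜ).inf' hne id := by
    intro s
    rw [Finset.le_inf'_iff]
    constructor
    · intro h m hm
      by_contra h1
      rw [mem_compl] at hm
      exact hm (h (mem_code.mpr h1))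
    · intro h m hm
      by_contra h1
      exact mem_code.mp hm (h m (mem_compl.mpr h1))
  simp only [h1]
  rw [← mc_spec]
  split_ifs
  · right; rfl
  · left; rfl

lemma ext_row (x : L) (y : Y) :
    (if F x y then (1 : ℝ) else 0) = ∑ S ∈ (code x).powerset, ext F y S := by
  rw [mc_spec, sum_ext]
  simp only [code_subset]

lemma ext_ne_zero {y : Y} {S : Finset L} (h : ext F y S ≠ 0) : S ∈ (supp F).image code := by
  unfold ext at h
  obtain ⟨s, _, h1⟩ := Finset.exists_ne_zero_of_sum_ne_zero h
  by_cases h2 : code s = S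
  · rw [if_pos h2] at h1
    exact mem_image.mpr ⟨s, mem_supp.mpr ⟨y, h1⟩, h2⟩
  · rw [if_neg h2] at h1
    exact absurd rfl h1

lemma ext_mem_W (S : Finset L) : (fun y => ext F y S) ∈ W ℝ (fun y x => F x y) 1 := by
  have h1 : (fun y => ext F y S) =
      ∑ s ∈ univ.filter (fun s : L => code s = S), fun y => mc F y s := by
    funext y
    rw [Finset.sum_apply, Finset.sum_filter]
    rfl
  rw [h1]
  exact Submodule.sum_mem _ fun s _ => mc_mem_W s

lemma two_mul_pow_le (p : ℕ) (hp : 1 ≤ p) : 2 * p ^ (p + 1) ≤ (p + 1) ^ (p + 1) := by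
  have key : ∀ n : ℕ, p ^ n * (p + n) ≤ (p + 1) ^ n * p := by
    intro n
    induction n with
    | zero => simp
    | succ n ih =>
      calc p ^ (n + 1) * (p + (n + 1)) = p * (p ^ n * (p + n)) + p ^ n * p := by ring
        _ ≤ p * (p ^ n * (p + n)) + p ^ n * (p + n) :=
            Nat.add_le_add_left (Nat.mul_le_mul_left _ (Nat.le_add_right p n)) _
        _ = (p + 1) * (p ^ n * (p + n)) := by ring
        _ ≤ (p + 1) * ((p + 1) ^ n * p) := Nat.mul_le_mul_left _ ih
        _ = (p + 1) ^ (n + 1) * p := by ring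
  have h1 := key (p + 1)
  apply Nat.le_of_mul_le_mul_right _ (show 0 < p by omega)
  calc 2 * p ^ (p + 1) * p = p ^ (p + 1) * (p + p) := by ring
    _ ≤ p ^ (p + 1) * (p + (p + 1)) := Nat.mul_le_mul_left _ (by omega)
    _ ≤ (p + 1) ^ (p + 1) * p := h1

omit [DecidableEq L] [DecidableLE L] in
/-- **Log-rank for meet closed matrices.** -/
theorem closed_prot [Fintype Y] (hF : MeetClosed F) :
    Prot F (1620 * (Nat.clog 2 (rk ℝ F + 2)) ^ 6 + 1) Set.univ Set.univ := by
  classical
  set r := rk ℝ F with hr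
  set d := Nat.clog 2 (r + 2) with hd
  have hd1 : 1 ≤ d := by
    rw [hd]
    exact Nat.clog_pos (by norm_num) (by omega)
  have hpow : r + 2 ≤ 2 ^ d := Nat.le_pow_clog (by norm_num) _
  set k := 8 * d ^ 2 + 1 with hk
  set q := 8 * k with hq
  have hPcard : ((supp F).image code).card ≤ 2 ^ d :=
    card_image_le.trans ((card_supp_le hF).trans (by omega))
  set I₀ : Finset (Finset L) := univ.filter fun z => z ≠ univ with hI₀
  -- number of steps
  have hstart : (act (ext F) ∅ I₀ univ).card * (q - 1) ^ (q * d) ≤ q ^ (q * d) := by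
    have h1 : (act (ext F) ∅ I₀ univ).card ≤ 2 ^ d := by
      refine (card_le_card ?_).trans hPcard
      intro c hc
      obtain ⟨_, y, _, h⟩ := mem_act.mp hc
      obtain ⟨s, h1, h2⟩ := exists_of_psi_ne_zero h
      rw [empty_union] at h1
      subst h1
      exact ext_ne_zero h2
    obtain ⟨p, hp⟩ : ∃ p, q = p + 1 := ⟨q - 1, by omega⟩
    rw [hp, Nat.add_sub_cancel]
    calc (act (ext F) ∅ I₀ univ).card * p ^ ((p + 1) * d)
        ≤ 2 ^ d * p ^ ((p + 1) * d) := Nat.mul_le_mul_right _ h1
      _ = (2 * p ^ (p + 1)) ^ d := by rw [mul_pow, pow_mul]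
      _ ≤ ((p + 1) ^ (p + 1)) ^ d := Nat.pow_le_pow_left (two_mul_pow_le p (by omega)) d
      _ = (p + 1) ^ ((p + 1) * d) := by rw [pow_mul]
  have hdec := main_dec (F := F) (α := code) (G := ext F) hd1 hk hq hPcard
    (fun y s h => ext_ne_zero h) ext_row ?_ (fun S _ => ext_mem_W S) (q * d) _ ∅ I₀ univ rfl ?_ ?_
    hstart
  · have hdec' : Dec ℝ F k (q * d + 2 * k) Set.univ Set.univ :=
      hdec.mono (fun x _ => ⟨mem_filter.mpr ⟨mem_univ _, code_ne_univ x⟩, empty_subset _⟩)
        (fun y _ => mem_univ _)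
    refine hdec'.prot.le (Nat.add_le_add_right ?_ 1)
    have h1 : Nat.clog 2 (Phi k (rk ℝ F)) ≤ k * d :=
      (clog_Phi_le k r).trans (Nat.mul_le_mul_left k (Nat.clog_mono_right 2 (by omega)))
    have hkd : k ≤ 9 * d ^ 2 := by nlinarith
    calc 2 * (q * d + 2 * k) * Nat.clog 2 (Phi k (rk ℝ F))
        ≤ 2 * (q * d + 2 * k) * (k * d) := Nat.mul_le_mul_left _ h1
      _ = k * k * (16 * d ^ 2 + 4 * d) := by rw [hq]; ring
      _ ≤ k * k * (20 * d ^ 2) := Nat.mul_le_mul_left _ (by nlinarith)
      _ ≤ (9 * d ^ 2) * (9 * d ^ 2) * (20 * d ^ 2) :=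
          Nat.mul_le_mul_right _ (Nat.mul_le_mul hkd hkd)
      _ = 1620 * d ^ 6 := by ring
  · intro S hS
    obtain ⟨s, hs, rfl⟩ := mem_image.mp hS
    obtain ⟨y, hy⟩ := mem_supp.mp hs
    simp only [code_subset]
    exact span_col_le_W ℝ _ (filter_mem_span hF hy)
  · intro x hx z hz
    rw [hI₀, mem_filter] at hx ⊢
    refine ⟨mem_univ _, fun h => hx.2 ?_⟩
    rw [h] at hz
    exact univ_subset_iff.mp hz
  · intro y _ z hz
    exact ext_01 y (mem_filter.mp hz).2

end Pool.Agent.Q174.AF
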