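import Mathlib

/-!
# A fully sensitive Boolean function in `k` variables with `2 ^ d` monomials has `k ≤ 8 d ^ 2`
-/

set_option autoImplicit false

namespace Pool.Agent.Q174.AF

open Finset Polynomial

/-- Markov's inequality at the end point of the interval -/
lemma markov {d : ℕ} {P : ℝ[X]} (hP : P.degree ≤ d)
    (hb : ∀ x ∈ Set.Icc (-1 : ℝ) 1, |P.eval x| ≤ 1) :
    |(derivative P).eval 1| ≤ (d : ℝ) ^ 2 := by
  have h1 := Polynomial.Chebyshev.eval_iterate_derivative_le_of_forall_abs_le_one (k := 1)
    (le_refl (1 : ℝ)) hP hb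
  have h2 := Polynomial.Chebyshev.eval_iterate_derivative_le_of_forall_abs_le_one (k := 1)
    (P := -P) (le_refl (1 : ℝ)) (by rw [degree_neg]; exact hP)
    (fun x hx => by rw [eval_neg, abs_neg]; exact hb x hx)
  simp only [Function.iterate_one, derivative_neg, eval_neg,
    Polynomial.Chebyshev.derivative_T_eval_one, Int.cast_natCast] at h1 h2
  rw [abs_le]
  constructor <;> linarith

variable {ι : Type*} [DecidableEq ι]

/-- Möbius inversion on the Boolean lattice -/
lemma zeta_inv {c h : Finset ι → ℝ} (hc : ∀ T, h T = ∑ S ∈ T.powerset, c S) (S : Finset ι) :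
    c S = ∑ T ∈ S.powerset, (-1) ^ (S \ T).card * h T := by
  have key : ∀ R ∈ S.powerset, (∑ T ∈ S.powerset, if R ⊆ T then (-1 : ℝ) ^ (S \ T).card else 0) =
      if R = S then 1 else 0 := by
    intro R hR
    rw [mem_powerset] at hR
    have h1 := Finset.prod_add (fun _ : ι => (1 : ℝ)) (fun i => if i ∈ R then (0 : ℝ) else -1) S
    have h2 : ∏ i ∈ S, ((1 : ℝ) + if i ∈ R then (0 : ℝ) else -1) = if R = S then 1 else 0 := by
      split_ifs with h
      · subst h
        exact Finset.prod_eq_one fun i hi => by simp [hi]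
      · obtain ⟨i, hi, hi'⟩ : ∃ i ∈ S, i ∉ R := by
          by_contra hcon
          push Not at hcon
          exact h (Finset.Subset.antisymm hR hcon)
        exact Finset.prod_eq_zero hi (by simp [hi'])
    rw [← h2, h1]
    refine Finset.sum_congr rfl fun T hT => ?_
    rw [mem_powerset] at hT
    rw [Finset.prod_const_one, one_mul]
    split_ifs with h
    · rw [Finset.prod_congr rfl (g := fun _ => (-1 : ℝ))]
      · rw [Finset.prod_const]
      · intro i hi
        rw [mem_sdiff] at hi
        rw [if_neg (fun hh => hi.2 (h hh))]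
    · obtain ⟨i, hi, hi'⟩ : ∃ i ∈ R, i ∉ T := by
        by_contra hcon
        push Not at hcon
        exact h hcon
      exact (Finset.prod_eq_zero (i := i) (mem_sdiff.mpr ⟨hR hi, hi'⟩) (by simp [hi])).symm
  calc c S = ∑ R ∈ S.powerset, c R * (if R = S then 1 else 0) := by
        simp
    _ = ∑ R ∈ S.powerset, c R * ∑ T ∈ S.powerset, if R ⊆ T then (-1 : ℝ) ^ (S \ T).card else 0 :=
        Finset.sum_congr rfl fun R hR => by rw [key R hR]
    _ = ∑ T ∈ S.powerset, ∑ R ∈ S.powerset, c R * if R ⊆ T then (-1 : ℝ) ^ (S \ T).card else 0 := by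
        simp_rw [Finset.mul_sum]
        rw [Finset.sum_comm]
    _ = ∑ T ∈ S.powerset, (-1) ^ (S \ T).card * h T := by
        refine Finset.sum_congr rfl fun T hT => ?_
        rw [mem_powerset] at hT
        rw [hc T, Finset.mul_sum]
        symm
        apply Finset.sum_subset_zero_on_sdiff (Finset.powerset_mono.mpr hT)
        · intro R hR
          rw [mem_sdiff, mem_powerset, mem_powerset] at hR
          rw [if_neg hR.2, mul_zero]
        · intro R hR
          rw [mem_powerset] at hR
          rw [if_pos hR, mul_comm]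

lemma sum_neg_one (S : Finset ι) (hS : S.Nonempty) :
    ∑ T ∈ S.powerset, (-1 : ℝ) ^ (S \ T).card = 0 := by
  have h1 := zeta_inv (c := fun S : Finset ι => if S = ∅ then (1 : ℝ) else 0) (h := fun _ => 1)
    (fun T => by simp) S
  simp only [mul_one] at h1
  rw [← h1, if_neg hS.ne_empty]

lemma abs_coeff_le {c h : Finset ι → ℝ} (hc : ∀ T, h T = ∑ S ∈ T.powerset, c S)
    (hb : ∀ T, |h T| ≤ 1) (S : Finset ι) : |c S| ≤ 2 ^ S.card := by
  rw [zeta_inv hc S]
  refine (Finset.abs_sum_le_sum_abs _ _).trans ?_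
  refine (Finset.sum_le_card_nsmul _ _ 1 ?_).trans ?_
  · intro T _
    rw [abs_mul, abs_pow, abs_neg, abs_one, one_pow, one_mul]
    exact hb T
  · rw [card_powerset]
    simp

variable [Fintype ι]

lemma expand {c h : Finset ι → ℝ} (hc : ∀ T, h T = ∑ S ∈ T.powerset, c S) (θ : ℝ) :
    ∑ T : Finset ι, h T * (θ ^ T.card * (1 - θ) ^ (Tᶜ).card) = ∑ S : Finset ι, c S * θ ^ S.card := by
  have key : ∀ S : Finset ι, (∑ T : Finset ι, if S ⊆ T then θ ^ T.card * (1 - θ) ^ (Tᶜ).card
      else 0) = θ ^ S.card := by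
    intro S
    have h1 := Finset.prod_add (fun _ : ι => θ) (fun i => if i ∈ S then (0 : ℝ) else 1 - θ) univ
    have h2 : ∏ i : ι, (θ + if i ∈ S then (0 : ℝ) else 1 - θ) = θ ^ S.card := by
      rw [← Finset.prod_const, ← Finset.prod_subset (Finset.subset_univ S)]
      · exact Finset.prod_congr rfl fun i hi => by simp [hi]
      · intro i _ hi
        simp [hi]
    rw [← h2, h1, Finset.powerset_univ]
    refine Finset.sum_congr rfl fun T _ => ?_
    rw [Finset.prod_const]
    split_ifs with h
    · rw [Finset.prod_congr rfl (g := fun _ => 1 - θ)]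
      · rw [Finset.prod_const, Finset.compl_eq_univ_sdiff]
      · intro i hi
        rw [mem_sdiff] at hi
        rw [if_neg (fun hh => hi.2 (h hh))]
    · obtain ⟨i, hi, hi'⟩ : ∃ i ∈ S, i ∉ T := by
        by_contra hcon
        push Not at hcon
        exact h hcon
      rw [Finset.prod_eq_zero (i := i) (mem_sdiff.mpr ⟨mem_univ i, hi'⟩) (by simp [hi]), mul_zero]
  calc ∑ T : Finset ι, h T * (θ ^ T.card * (1 - θ) ^ (Tᶜ).card)
      = ∑ T : Finset ι, ∑ S : Finset ι,
          c S * (if S ⊆ T then θ ^ T.card * (1 - θ) ^ (Tᶜ).card else 0) := by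
        refine Finset.sum_congr rfl fun T _ => ?_
        rw [hc T, Finset.sum_mul]
        apply Finset.sum_subset_zero_on_sdiff (Finset.subset_univ _)
        · intro R hR
          rw [mem_sdiff, mem_powerset] at hR
          rw [if_neg hR.2, mul_zero]
        · intro R hR
          rw [mem_powerset] at hR
          rw [if_pos hR]
    _ = ∑ S : Finset ι, c S * ∑ T : Finset ι,
          (if S ⊆ T then θ ^ T.card * (1 - θ) ^ (Tᶜ).card else 0) := by
        rw [Finset.sum_comm]
        simp_rw [Finset.mul_sum]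
    _ = _ := Finset.sum_congr rfl fun S _ => by rw [key S]

/-- the sum of the weights is one -/
lemma weights (θ : ℝ) :
    ∑ T : Finset ι, θ ^ T.card * (1 - θ) ^ (Tᶜ).card = 1 := by
  have h1 := expand (ι := ι) (c := fun S => if S = ∅ then (1 : ℝ) else 0) (h := fun _ => 1)
    (fun T => by simp) θ
  simpa using h1

/-- **Sensitivity and sparsity.** -/
theorem sens {d : ℕ} (hd : 1 ≤ d) {c h : Finset ι → ℝ} (hc : ∀ T, h T = ∑ S ∈ T.powerset, c S)
    (h01 : ∀ T, h T = 0 ∨ h T = 1) (hr : (univ.filter fun S => c S ≠ 0).card ≤ 2 ^ d)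
    (hs : ∀ j, h {j} ≠ h ∅) : Fintype.card ι ≤ 8 * d ^ 2 := by
  classical
  have hb : ∀ T, |h T| ≤ 1 := by
    intro T
    rcases h01 T with h | h <;> rw [h] <;> norm_num
  have hcb := abs_coeff_le hc hb
  -- values of the polynomial
  have hq : ∀ θ ∈ Set.Icc (0 : ℝ) 1, |(∑ S : Finset ι, c S * θ ^ S.card) - 1 / 2| ≤ 1 / 2 := by
    intro θ hθ
    rw [← expand hc θ]
    have h1 : ∀ T : Finset ι, 0 ≤ θ ^ T.card * (1 - θ) ^ (Tᶜ).card := fun T =>
      mul_nonneg (pow_nonneg hθ.1 _) (pow_nonneg (by linarith [hθ.2]) _)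
    have h2 : 0 ≤ ∑ T : Finset ι, h T * (θ ^ T.card * (1 - θ) ^ (Tᶜ).card) := by
      refine Finset.sum_nonneg fun T _ => mul_nonneg ?_ (h1 T)
      rcases h01 T with h | h <;> rw [h] <;> norm_num
    have h3 : ∑ T : Finset ι, h T * (θ ^ T.card * (1 - θ) ^ (Tᶜ).card) ≤ 1 := by
      refine (Finset.sum_le_sum fun T _ => ?_).trans (weights (ι := ι) θ).le
      rcases h01 T with h | h <;> rw [h]
      · rw [zero_mul]; exact h1 T
      · rw [one_mul]
    rw [abs_le]
    constructor <;> linarith
  -- the low degree part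
  set lo : Finset (Finset ι) := univ.filter fun S => S.card ≤ d with hlo
  set Q : ℝ[X] := (∑ S ∈ lo, C (c S) * X ^ S.card) - C (1 / 2) with hQ
  have hQev : ∀ θ, Q.eval θ = (∑ S ∈ lo, c S * θ ^ S.card) - 1 / 2 := by
    intro θ
    rw [hQ, eval_sub, eval_finsetSum, eval_C]
    congr 1
    exact Finset.sum_congr rfl fun S _ => by simp
  have hQb : ∀ θ ∈ Set.Icc (0 : ℝ) (1 / 4), |Q.eval θ| ≤ 1 := by
    intro θ hθ
    have h1 := hq θ ⟨hθ.1, by linarith [hθ.2]⟩
    have h2 : ∑ S : Finset ι, c S * θ ^ S.card = (∑ S ∈ lo, c S * θ ^ S.card) +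
        ∑ S ∈ univ.filter (fun S => ¬ S.card ≤ d), c S * θ ^ S.card :=
      (Finset.sum_filter_add_sum_filter_not univ (fun S : Finset ι => S.card ≤ d) _).symm
    have h3 : |∑ S ∈ univ.filter (fun S : Finset ι => ¬ S.card ≤ d), c S * θ ^ S.card| ≤ 1 / 2 := by
      have h4 : ∑ S ∈ univ.filter (fun S : Finset ι => ¬ S.card ≤ d), c S * θ ^ S.card =
          ∑ S ∈ (univ.filter (fun S : Finset ι => c S ≠ 0)).filter (fun S => ¬ S.card ≤ d),
            c S * θ ^ S.card := by
        symm
        apply Finset.sum_subset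
        · intro S hS
          simp only [mem_filter, mem_univ, true_and] at hS ⊢
          exact hS.2
        · intro S hS hS'
          simp only [mem_filter, mem_univ, true_and, not_and, not_not] at hS hS'
          by_cases hcS : c S = 0
          · rw [hcS, zero_mul]
          · exact absurd (hS' hcS) hS
      rw [h4]
      refine (Finset.abs_sum_le_sum_abs _ _).trans ?_
      refine (Finset.sum_le_card_nsmul _ _ ((1 / 2 : ℝ) ^ (d + 1)) ?_).trans ?_
      · intro S hS
        simp only [mem_filter, mem_univ, true_and, not_le] at hS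
        rw [abs_mul, abs_of_nonneg (pow_nonneg hθ.1 _)]
        calc |c S| * θ ^ S.card ≤ 2 ^ S.card * (1 / 4) ^ S.card :=
              mul_le_mul (hcb S) (pow_le_pow_left₀ hθ.1 hθ.2 _) (pow_nonneg hθ.1 _)
                (by positivity)
          _ = (1 / 2) ^ S.card := by rw [← mul_pow]; norm_num
          _ ≤ (1 / 2) ^ (d + 1) := pow_le_pow_of_le_one (by norm_num) (by norm_num) hS.2
      · rw [nsmul_eq_mul]
        have h5 : (((univ.filter (fun S : Finset ι => c S ≠ 0)).filter
            (fun S => ¬ S.card ≤ d)).card : ℝ) ≤ 2 ^ d := by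
          have := (Finset.card_filter_le (univ.filter (fun S : Finset ι => c S ≠ 0))
            (fun S => ¬ S.card ≤ d)).trans hr
          exact_mod_cast this
        calc _ ≤ (2 : ℝ) ^ d * (1 / 2) ^ (d + 1) :=
              mul_le_mul_of_nonneg_right h5 (by positivity)
          _ = 1 / 2 := by
              rw [pow_succ, ← mul_assoc, ← mul_pow]
              norm_num
    rw [hQev]
    rw [h2] at h1
    rw [abs_le] at h1 h3 ⊢
    constructor <;> linarith [h1.1, h1.2, h3.1, h3.2]
  -- rescaling
  have hdegQ : Q.degree ≤ d := by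
    rw [hQ]
    refine (degree_sub_le _ _).trans (max_le ?_ (degree_C_le.trans (by exact_mod_cast d.zero_le)))
    refine (degree_sum_le _ _).trans (Finset.sup_le fun S hS => ?_)
    refine (degree_C_mul_X_pow_le _ _).trans ?_
    rw [hlo, mem_filter] at hS
    exact_mod_cast hS.2
  set P : ℝ[X] := Q.comp (C (1 / 8) * (1 - X)) with hP
  have hPdeg : P.degree ≤ d := by
    have h1 : P.natDegree ≤ Q.natDegree * (C (1 / 8 : ℝ) * (1 - X)).natDegree := natDegree_comp_le
    have h2 : (C (1 / 8 : ℝ) * (1 - X)).natDegree ≤ 1 := by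
      refine (natDegree_C_mul_le _ _).trans ?_
      refine (natDegree_sub_le _ _).trans ?_
      simp
    have h3 : Q.natDegree ≤ d := natDegree_le_iff_degree_le.mpr hdegQ
    rw [← natDegree_le_iff_degree_le]
    calc P.natDegree ≤ Q.natDegree * (C (1 / 8 : ℝ) * (1 - X)).natDegree := h1
      _ ≤ d * 1 := Nat.mul_le_mul h3 h2
      _ = d := mul_one d
  have hPb : ∀ x ∈ Set.Icc (-1 : ℝ) 1, |P.eval x| ≤ 1 := by
    intro x hx
    rw [hP, eval_comp]
    apply hQb
    simp only [eval_mul, eval_C, eval_sub, eval_one, eval_X]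
    constructor <;> linarith [hx.1, hx.2]
  have hM := markov hPdeg hPb
  have hder : (derivative P).eval 1 = - (1 / 8) * (derivative Q).eval 0 := by
    rw [hP, derivative_comp, eval_mul, eval_comp]
    simp only [derivative_mul, derivative_C, zero_mul, derivative_sub, derivative_one,
      derivative_X, zero_sub, zero_add, eval_mul, eval_C, eval_neg, eval_one, eval_sub, eval_X,
      sub_self, mul_zero]
    ring
  have hQ0 : (derivative Q).eval 0 = ∑ S ∈ lo, if S.card = 1 then c S else 0 := by
    rw [hQ, derivative_sub, derivative_C, sub_zero, derivative_sum, eval_finsetSum]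
    refine Finset.sum_congr rfl fun S _ => ?_
    rw [derivative_C_mul_X_pow, eval_mul, eval_C, eval_pow, eval_X]
    rcases Nat.lt_trichotomy S.card 1 with h | h | h
    · have : S.card = 0 := by omega
      simp [this]
    · simp [h]
    · rw [if_neg (by omega), zero_pow (by omega), mul_zero]
  -- the value of the derivative
  have hsum : ∑ S ∈ lo, (if S.card = 1 then c S else 0) = ∑ j : ι, c {j} := by
    rw [← Finset.sum_filter]
    have h1 : lo.filter (fun S => S.card = 1) = univ.image (fun j : ι => ({j} : Finset ι)) := by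
      ext S
      simp only [hlo, mem_filter, mem_univ, true_and, mem_image]
      constructor
      · rintro ⟨_, h2⟩
        obtain ⟨j, rfl⟩ := card_eq_one.mp h2
        exact ⟨j, rfl⟩
      · rintro ⟨j, rfl⟩
        rw [card_singleton]
        exact ⟨hd, rfl⟩
    rw [h1, Finset.sum_image]
    intro i _ j _ hij
    exact Finset.singleton_injective hij
  have hcj : ∀ j, c {j} = h {j} - h ∅ := by
    intro j
    rw [hc, hc ∅, show ({j} : Finset ι) = insert j ∅ by simp,
      Finset.sum_powerset_insert (by simp)]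
    simp
  have hfin : |∑ j : ι, c {j}| = Fintype.card ι := by
    rcases h01 ∅ with h0 | h0
    · have h2 : ∀ j, c {j} = 1 := by
        intro j
        have h3 := hs j
        rw [hcj, h0]
        rcases h01 {j} with h4 | h4
        · rw [h0, h4] at h3
          exact absurd rfl h3
        · rw [h4, sub_zero]
      simp [h2]
    · have h2 : ∀ j, c {j} = -1 := by
        intro j
        have h3 := hs j
        rw [hcj, h0]
        rcases h01 {j} with h4 | h4
        · rw [h4, zero_sub]
        · rw [h0, h4] at h3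
          exact absurd rfl h3
      simp [h2]
  rw [hder, hQ0, hsum, abs_mul, hfin] at hM
  have h1 : |(-(1 / 8) : ℝ)| = 1 / 8 := by norm_num
  rw [h1] at hM
  have h2 : (Fintype.card ι : ℝ) ≤ 8 * (d : ℝ) ^ 2 := by linarith
  exact_mod_cast h2

end Pool.Agent.Q174.AF
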