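import Pool.Agent.Q174.AF.Good
import Pool.Agent.Q174.AF.Count

/-!
# The dichotomy: some short question reduces the number of active classes
-/

set_option autoImplicit false

namespace Pool.Agent.Q174.AF

open Finset

variable {ι : Type*} [DecidableEq ι] [Fintype ι]

lemma card_subtype_filter {β : Type*} [DecidableEq β] (A : Finset β) (P : β → Prop)
    [DecidablePred P] : (univ.filter fun c : A => P c).card = (A.filter P).card := by
  rw [← Finset.card_map (Function.Embedding.subtype fun x => x ∈ A)]
  congr 1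
  ext c
  simp only [mem_map, mem_filter, mem_univ, true_and, Function.Embedding.subtype_apply,
    Subtype.exists, exists_and_left, exists_prop]
  constructor
  · rintro ⟨x, h1, h2, rfl⟩
    exact ⟨h2, h1⟩
  · rintro ⟨h1, h2⟩
    exact ⟨c, h2, h1, rfl⟩

lemma sup_update {β : Type*} {A : Finset (Finset ι)} [DecidableEq β] (V : β → A) (j : β) (c : A)
    (J : Finset β) (hj : j ∉ J) :
    J.sup (fun i => (Function.update V j c i : Finset ι)) = J.sup (fun i => (V i : Finset ι)) := by
  refine Finset.sup_congr rfl fun i hi => ?_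
  rw [Function.update_of_ne]
  rintro rfl
  exact hj hi

/-- the first `n` coordinates -/
def pre (k n : ℕ) : Finset (Fin k) := univ.filter fun i => i.val < n

lemma pre_card {k n : ℕ} (hn : n ≤ k) : (pre k n).card ≤ n := by
  have h1 : (pre k n).image Fin.val ⊆ range n := by
    intro i hi
    obtain ⟨j, hj, rfl⟩ := mem_image.mp hi
    simp only [pre, mem_filter, mem_univ, true_and] at hj
    exact mem_range.mpr hj
  rw [← Finset.card_image_of_injective (pre k n) Fin.val_injective]
  exact (card_le_card h1).trans (card_range n).le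

lemma not_mem_pre {k : ℕ} (j : Fin k) : j ∉ pre k j.val := by
  simp [pre]

lemma pre_succ {k : ℕ} (j : Fin k) : pre k (j.val + 1) = insert j (pre k j.val) := by
  ext i
  simp only [pre, mem_filter, mem_univ, true_and, mem_insert, Fin.ext_iff]
  omega

lemma pre_all (k : ℕ) : pre k k = univ := by
  ext i
  simp [pre]

lemma pre_zero (k : ℕ) : pre k 0 = ∅ := by
  ext i
  simp [pre]

/-- **The dichotomy.** -/
theorem structural {d k q : ℕ} (hd : 1 ≤ d) (hk : k = 8 * d ^ 2 + 1) (hq : q = 8 * k)
    {Y : Type*} {G : Y → Finset ι → ℝ} {a : Finset ι} {I : Finset (Finset ι)} {C : Finset Y}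
    (h01 : ∀ y ∈ C, ∀ z ∈ I, (∑ s ∈ z.powerset, G y s = 0) ∨ (∑ s ∈ z.powerset, G y s = 1))
    (hr : ∀ y ∈ C, (univ.filter fun s => G y s ≠ 0).card ≤ 2 ^ d)
    (hI : ∀ x ∈ I, ∀ z ⊆ x, z ∈ I) (hρ : 2 * k < (act G a I C).card) :
    (∃ T ⊆ act G a I C, T.card + 1 ≤ k ∧ (a ∪ T.sup id) ∈ I ∧
      q * (((act G a I C).image fun c => (a ∪ T.sup id) ∪ c).filter (· ∈ I)).card ≤
        (q - 1) * (act G a I C).card) ∨
    (∃ T ⊆ act G a I C, T.card + 1 ≤ k ∧ (∃ y ∈ C, ∀ c ∈ T, psi (G y) a c ≠ 0) ∧
      ∀ C' : Finset Y, (∀ y ∈ C', y ∈ C ∧ ∀ c ∈ T, psi (G y) a c ≠ 0) →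
        q * (act G a I C').card ≤ (q - 1) * (act G a I C).card) := by
  classical
  by_contra hcon
  push Not at hcon
  obtain ⟨hR, hK⟩ := hcon
  set A := act G a I C with hA
  set bad : Fin k → (Fin k → A) → Prop := fun j V =>
    (a ∪ (pre k j.val).sup (fun i => (V i : Finset ι)) ∈ I ∧
      (a ∪ (pre k j.val).sup (fun i => (V i : Finset ι))) ∪ (V j : Finset ι) ∉ I) ∨
    ((∃ y ∈ C, ∀ i ∈ pre k j.val, psi (G y) a (V i) ≠ 0) ∧
      ¬ ∃ y ∈ C, (∀ i ∈ pre k j.val, psi (G y) a (V i) ≠ 0) ∧ psi (G y) a (V j) ≠ 0) ∨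
    (a ∪ (univ.erase j).sup (fun i => (V i : Finset ι)) ∈ I ∧
      (a ∪ (univ.erase j).sup (fun i => (V i : Finset ι))) ∪ (V j : Finset ι) ∈ I ∧
      ((V j : Finset ι) ⊆ a ∪ (univ.erase j).sup (fun i => (V i : Finset ι)) ∨
        ∃ c' ∈ A, c' ≠ (V j : Finset ι) ∧
          (a ∪ (univ.erase j).sup (fun i => (V i : Finset ι))) ∪ c' =
          (a ∪ (univ.erase j).sup (fun i => (V i : Finset ι))) ∪ (V j : Finset ι))) with hbad
  -- the number of bad choices for one coordinate
  have hcount : ∀ j V, q * (univ.filter fun c => bad j (Function.update V j c)).card ≤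
      4 * A.card + q := by
    intro j V
    set W₁ := a ∪ (pre k j.val).sup (fun i => (V i : Finset ι)) with hW₁
    set W₂ := a ∪ (univ.erase j).sup (fun i => (V i : Finset ι)) with hW₂
    have e1 : ∀ c : A, (pre k j.val).sup
        (fun i => (Function.update V j c i : Finset ι)) =
        (pre k j.val).sup (fun i => (V i : Finset ι)) :=
      fun c => sup_update V j c _ (not_mem_pre j)
    have e2 : ∀ c : A, (univ.erase j).sup
        (fun i => (Function.update V j c i : Finset ι)) =
        (univ.erase j).sup (fun i => (V i : Finset ι)) :=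
      fun c => sup_update V j c _ (notMem_erase j univ)
    have e3 : ∀ (c : A) (y : Y), (∀ i ∈ pre k j.val,
        psi (G y) a (Function.update V j c i : Finset ι) ≠ 0) ↔
        ∀ i ∈ pre k j.val, psi (G y) a (V i) ≠ 0 := by
      intro c y
      refine forall₂_congr fun i hi => ?_
      rw [Function.update_of_ne]
      rintro rfl
      exact not_mem_pre i hi
    have hTcard : ∀ J : Finset (Fin k), j ∉ J →
        (J.image fun i => (V i : Finset ι)).card + 1 ≤ k := by
      intro J hJ
      have h1 : (J.image fun i => (V i : Finset ι)).card ≤ J.card := card_image_le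
      have h2 : J.card < (univ : Finset (Fin k)).card :=
        card_lt_card ⟨subset_univ _, fun h => hJ (h (mem_univ j))⟩
      rw [card_univ, Fintype.card_fin] at h2
      omega
    have hTsub : ∀ J : Finset (Fin k), (J.image fun i => (V i : Finset ι)) ⊆ A := by
      intro J c hc
      obtain ⟨i, _, rfl⟩ := mem_image.mp hc
      exact (V i).2
    have hTsup : ∀ J : Finset (Fin k), (J.image fun i => (V i : Finset ι)).sup id =
        J.sup (fun i => (V i : Finset ι)) := by
      intro J
      rw [Finset.sup_image]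
      rfl
    -- first kind
    have c1 : q * (univ.filter fun c : A => W₁ ∈ I ∧ W₁ ∪ (c : Finset ι) ∉ I).card ≤
        A.card := by
      by_cases hW : W₁ ∈ I
      · have h1 := hR _ (hTsub (pre k j.val)) (hTcard _ (not_mem_pre j))
          (by rw [hTsup]; exact hW)
        rw [hTsup] at h1
        have h2 := cntA A I W₁ q h1
        simp only [hW, true_and]
        rw [card_subtype_filter A fun c => W₁ ∪ c ∉ I]
        exact h2
      · simp [hW]
    -- second kind
    have c2 : q * (univ.filter fun c : A => (∃ y ∈ C, ∀ i ∈ pre k j.val, psi (G y) a (V i) ≠ 0) ∧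
        ¬ ∃ y ∈ C, (∀ i ∈ pre k j.val, psi (G y) a (V i) ≠ 0) ∧ psi (G y) a (c : Finset ι) ≠ 0).card ≤
        A.card := by
      by_cases hW : ∃ y ∈ C, ∀ i ∈ pre k j.val, psi (G y) a (V i) ≠ 0
      · obtain ⟨Y', hY', h1⟩ := hK _ (hTsub (pre k j.val)) (hTcard _ (not_mem_pre j)) (by
          obtain ⟨y, hy, h⟩ := hW
          refine ⟨y, hy, fun c hc => ?_⟩
          obtain ⟨i, hi, rfl⟩ := mem_image.mp hc
          exact h i hi)
        simp only [hW, true_and]
        rw [card_subtype_filter A fun c =>
          ¬ ∃ y ∈ C, (∀ i ∈ pre k j.val, psi (G y) a (V i) ≠ 0) ∧ psi (G y) a c ≠ 0]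
        have h2 : (A.filter fun c => ¬ ∃ y ∈ C, (∀ i ∈ pre k j.val, psi (G y) a (V i) ≠ 0) ∧
            psi (G y) a c ≠ 0).card + (act G a I Y').card ≤ A.card := by
          rw [← Finset.card_union_of_disjoint]
          · apply card_le_card
            intro c hc
            rcases mem_union.mp hc with h | h
            · exact (mem_filter.mp h).1
            · rw [mem_act] at h
              obtain ⟨h3, y, hy, h4⟩ := h
              rw [hA, mem_act]
              exact ⟨h3, y, (hY' y hy).1, h4⟩
          · rw [Finset.disjoint_left]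
            intro c hc hc'
            rw [mem_filter] at hc
            rw [mem_act] at hc'
            obtain ⟨h3, y, hy, h4⟩ := hc'
            apply hc.2
            refine ⟨y, (hY' y hy).1, fun i hi => ?_, h4⟩
            exact (hY' y hy).2 _ (mem_image.mpr ⟨i, hi, rfl⟩)
        have h8 : (q - 1) * A.card + A.card = q * A.card := by
          obtain ⟨p, hp⟩ : ∃ p, q = p + 1 := ⟨q - 1, by omega⟩
          rw [hp]
          simp only [Nat.add_sub_cancel]
          ring
        have h9 := Nat.mul_le_mul_left q h2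
        rw [mul_add] at h9
        omega
      · simp [hW]
    -- third kind
    have c3 : q * (univ.filter fun c : A => W₂ ∈ I ∧ W₂ ∪ (c : Finset ι) ∈ I ∧
        ((c : Finset ι) ⊆ W₂ ∨ ∃ c' ∈ A, c' ≠ (c : Finset ι) ∧
          W₂ ∪ c' = W₂ ∪ (c : Finset ι))).card ≤ 2 * A.card + q := by
      by_cases hW : W₂ ∈ I
      · have h1 := hR _ (hTsub (univ.erase j)) (hTcard _ (notMem_erase j univ))
          (by rw [hTsup]; exact hW)
        rw [hTsup] at h1
        have h2 := cntC A I W₂ q h1
        simp only [hW, true_and]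
        rw [card_subtype_filter A fun c => W₂ ∪ c ∈ I ∧
          (c ⊆ W₂ ∨ ∃ c' ∈ A, c' ≠ c ∧ W₂ ∪ c' = W₂ ∪ c)]
        exact h2
      · simp [hW]
    have hsub : (univ.filter fun c => bad j (Function.update V j c)) ⊆
        (univ.filter fun c : A => W₁ ∈ I ∧ W₁ ∪ (c : Finset ι) ∉ I) ∪
        ((univ.filter fun c : A => (∃ y ∈ C, ∀ i ∈ pre k j.val, psi (G y) a (V i) ≠ 0) ∧
          ¬ ∃ y ∈ C, (∀ i ∈ pre k j.val, psi (G y) a (V i) ≠ 0) ∧
            psi (G y) a (c : Finset ι) ≠ 0) ∪
        (univ.filter fun c : A => W₂ ∈ I ∧ W₂ ∪ (c : Finset ι) ∈ I ∧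
        ((c : Finset ι) ⊆ W₂ ∨ ∃ c' ∈ A, c' ≠ (c : Finset ι) ∧
          W₂ ∪ c' = W₂ ∪ (c : Finset ι)))) := by
      intro c hc
      simp only [mem_union, mem_filter, mem_univ, true_and]
      rw [mem_filter] at hc
      have h := hc.2
      simp only [hbad, e1, e2, e3, Function.update_self] at h
      exact h
    have h1 := (card_le_card hsub).trans ((card_union_le _ _).trans
      (Nat.add_le_add_left (card_union_le _ _) _))
    have h2 := Nat.mul_le_mul_left q h1
    rw [mul_add, mul_add] at h2
    omega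
  have htotal := count_all bad q (4 * A.card + q) hcount
  -- hence there is a good tuple
  obtain ⟨V, hV⟩ : ∃ V : Fin k → A, ∀ j, ¬ bad j V := by
    by_contra hcon
    push Not at hcon
    have h1 : (univ.filter fun V : Fin k → A => ∃ j, bad j V) = univ := by
      ext V
      simp only [mem_filter, mem_univ, true_and, iff_true]
      exact hcon V
    rw [h1, card_univ, Fintype.card_fun, Fintype.card_fin, Fintype.card_coe] at htotal
    have hpos : 0 < A.card ^ k := pow_pos (by omega) k
    have h2 : q * A.card ≤ k * (4 * A.card + q) := by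
      apply Nat.le_of_mul_le_mul_right _ hpos
      calc q * A.card * A.card ^ k = q * (A.card * A.card ^ k) := by ring
        _ ≤ k * ((4 * A.card + q) * A.card ^ k) := htotal
        _ = k * (4 * A.card + q) * A.card ^ k := by ring
    have hkpos : 0 < k := by omega
    rw [hq] at h2
    have h3 : k * (8 * A.card) ≤ k * (4 * A.card + 8 * k) := by
      calc k * (8 * A.card) = 8 * k * A.card := by ring
        _ ≤ _ := h2
    have h4 := Nat.le_of_mul_le_mul_left h3 hkpos
    omega
  simp only [hbad, not_or, not_and, not_exists, not_not] at hV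
  -- the base is in the ideal
  have hAne : A.Nonempty := by
    rw [← card_pos]
    omega
  obtain ⟨c₀, hc₀⟩ := hAne
  have hc₀' := (mem_act (G := G)).mp hc₀
  obtain ⟨hc₀I, y₀, hy₀, hval₀⟩ := hc₀'
  have haI : a ∈ I := hI c₀ hc₀I a (subset_of_psi_ne_zero hval₀)
  -- prefixes stay in the ideal
  have hpre1 : ∀ n ≤ k, a ∪ (pre k n).sup (fun i => (V i : Finset ι)) ∈ I := by
    intro n
    induction n with
    | zero =>
      intro _
      rw [pre_zero, Finset.sup_empty]
      simpa using haI
    | succ n ih =>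
      intro hn
      have h1 := (hV ⟨n, by omega⟩).1 (ih (by omega))
      have h2 := pre_succ (⟨n, by omega⟩ : Fin k)
      simp only at h2
      rw [h2, Finset.sup_insert]
      have h3 : a ∪ ((V ⟨n, by omega⟩ : Finset ι) ⊔ (pre k n).sup fun i => (V i : Finset ι)) =
          (a ∪ (pre k n).sup fun i => (V i : Finset ι)) ∪ (V ⟨n, by omega⟩ : Finset ι) := by
        ext e
        simp only [mem_union, Finset.sup_eq_union]
        tauto
      rw [h3]
      exact h1
  have hpre2 : ∀ n ≤ k, ∃ y ∈ C, ∀ i ∈ pre k n, psi (G y) a (V i) ≠ 0 := by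
    intro n
    induction n with
    | zero =>
      intro _
      exact ⟨y₀, hy₀, by simp [pre_zero]⟩
    | succ n ih =>
      intro hn
      have h1 := (hV ⟨n, by omega⟩).2.1 (ih (by omega))
      push Not at h1
      obtain ⟨y', hy', h2, h3⟩ := h1
      refine ⟨y', hy', ?_⟩
      have h4 := pre_succ (⟨n, by omega⟩ : Fin k)
      simp only at h4
      rw [h4]
      intro i hi
      rcases mem_insert.mp hi with rfl | hi
      · exact h3
      · exact h2 i hi
  have hUI := hpre1 k le_rfl
  obtain ⟨y, hy, hval⟩ := hpre2 k le_rfl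
  rw [pre_all] at hUI hval
  have hsplit : ∀ j, (a ∪ (univ.erase j).sup fun i => (V i : Finset ι)) ∪ (V j : Finset ι) =
      a ∪ univ.sup fun i => (V i : Finset ι) := by
    intro j
    ext e
    simp only [mem_union, Finset.mem_sup, mem_erase, mem_univ, and_true, true_and]
    constructor
    · rintro ((h | ⟨i, _, h⟩) | h)
      · exact Or.inl h
      · exact Or.inr ⟨i, h⟩
      · exact Or.inr ⟨j, h⟩
    · rintro (h | ⟨i, h⟩)
      · exact Or.inl (Or.inl h)
      · by_cases hij : i = j
        · subst hij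
          exact Or.inr h
        · exact Or.inl (Or.inr ⟨i, hij, h⟩)
  have hfinal := good_le hd (h01 y hy) (hr y hy) hI (fun i => (V i : Finset ι)) hUI hy
    (fun j => hval j (mem_univ j)) ?_ ?_
  · omega
  · intro j h
    have h1 := (hV j).2.2
    refine (h1 ?_ ?_).1 h
    · exact hI _ hUI _ (by rw [← hsplit j]; exact subset_union_left)
    · rw [hsplit j]; exact hUI
  · intro j c hc he
    by_contra hne
    have h1 := (hV j).2.2
    refine (h1 ?_ ?_).2 c hc hne he
    · exact hI _ hUI _ (by rw [← hsplit j]; exact subset_union_left)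
    · rw [hsplit j]; exact hUI

end Pool.Agent.Q174.AF
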